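import Pool.Agent.H24.SCG.Stmts

/-!
Basic API for the project SCG: products, commutation and base change in terms of matrices.
-/

namespace Pool.SCG

open Matrix

variable {F : Type*} [Field F]

/-- abbreviation: the type of matrices -/
abbrev M3 (F : Type*) := Matrix (Fin 3) (Fin 3) F

theorem coe_it (m : SL3 F) : ((it m : SL3 F) : M3 F) = (adjugate (m : M3 F)).transpose := by
  simp [it, Matrix.SpecialLinearGroup.coe_transpose]

theorem Is.ext {x y : Cor F} {s : Bool} {A : M3 F} (hx : Is x s A) (hy : Is y s A) : x = y := by
  apply Cor.ext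
  · exact Subtype.ext (hx.2.trans hy.2.symm)
  · exact hx.1.trans hy.1.symm

theorem Is.uniq {x : Cor F} {s t : Bool} {A B : M3 F} (hx : Is x s A) (hy : Is x t B) :
    s = t ∧ A = B := ⟨hx.1.symm.trans hy.1, hx.2.symm.trans hy.2⟩

theorem Is.self (x : Cor F) : Is x x.s (x.m : M3 F) := ⟨rfl, rfl⟩

theorem Is.det {x : Cor F} {s : Bool} {A : M3 F} (hx : Is x s A) : A.det = 1 := by
  rw [← hx.2]; exact x.m.2

theorem Is.ne_of_sign {x y : Cor F} {A B : M3 F} (hx : Is x false A) (hy : Is y true B) :
    x ≠ y := by
  rintro rfl
  have := hx.1.symm.trans hy.1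
  exact Bool.false_ne_true this

theorem Is.ne_of_mat {x y : Cor F} {s t : Bool} {A B : M3 F} (hx : Is x s A) (hy : Is y t B)
    (h : A ≠ B) : x ≠ y := by
  rintro rfl
  exact h (hx.2.symm.trans hy.2)

theorem is_one : Is (1 : Cor F) false 1 := ⟨rfl, rfl⟩

theorem exists_is (s : Bool) (A : M3 F) (h : A.det = 1) : ∃ x : Cor F, Is x s A :=
  ⟨⟨⟨A, h⟩, s⟩, rfl, rfl⟩

/-- multiplication with an inner element on the right -/
theorem Is.mul_inner {x y : Cor F} {s : Bool} {A B : M3 F} (hx : Is x s A) (hy : Is y false B) :
    Is (x * y) s (A * B) := by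
  refine ⟨?_, ?_⟩
  · rw [Cor.mul_s, hx.1, hy.1, Bool.xor_false]
  · rw [Cor.mul_m, hy.1, ← hx.2, ← hy.2]
    rfl

/-- multiplication with an outer element on the right -/
theorem Is.mul_outer {x y : Cor F} {s : Bool} {A B : M3 F} (hx : Is x s A) (hy : Is y true B) :
    Is (x * y) (!s) ((adjugate A).transpose * B) := by
  refine ⟨?_, ?_⟩
  · rw [Cor.mul_s, hx.1, hy.1, Bool.xor_true]
  · rw [Cor.mul_m, hy.1, ← hx.2, ← hy.2]
    show ((tw true x.m * y.m : SL3 F) : M3 F) = _
    rw [Matrix.SpecialLinearGroup.coe_mul]
    show ((it x.m : SL3 F) : M3 F) * _ = _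
    rw [coe_it]

theorem adj_mul_self {A : M3 F} (h : A.det = 1) : adjugate A * A = 1 := by
  rw [adjugate_mul, h, one_smul]

theorem mul_adj_self {A : M3 F} (h : A.det = 1) : A * adjugate A = 1 := by
  rw [mul_adjugate, h, one_smul]

theorem adj_unique {A B : M3 F} (h : A.det = 1) (hAB : A * B = 1) : adjugate A = B := by
  calc adjugate A = adjugate A * (A * B) := by rw [hAB, mul_one]
    _ = B := by rw [← mul_assoc, adj_mul_self h, one_mul]

/-- multiplication with an outer element on the right, inverse matrix given -/
theorem Is.mul_outer' {x y : Cor F} {s : Bool} {A A' B : M3 F} (hx : Is x s A)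
    (hy : Is y true B) (h : A * A' = 1) : Is (x * y) (!s) (A'.transpose * B) := by
  have := hx.mul_outer hy
  rwa [adj_unique hx.det h] at this

/-- base change of an inner element -/
theorem Is.cj_inner {x : Cor F} {A : M3 F} (P : SL3 F) (hx : Is x false A) :
    Is (cj P x) false (adjugate (P : M3 F) * A * (P : M3 F)) := by
  refine ⟨?_, ?_⟩
  · simp [cj, hx.1]
  · rw [← hx.2]
    simp [cj, hx.1, tw]

/-- base change of an outer element -/
theorem Is.cj_outer {x : Cor F} {A : M3 F} (P : SL3 F) (hx : Is x true A) :
    Is (cj P x) true ((P : M3 F).transpose * A * (P : M3 F)) := by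
  refine ⟨?_, ?_⟩
  · simp [cj, hx.1]
  · have h1 : (tw true ((tw false P)⁻¹) : SL3 F) = P.transpose := by
      simp only [tw, it, Bool.false_eq_true, if_false, if_true, inv_inv]
    have : (cj P x).m = P.transpose * x.m * P := by
      simp only [cj, Cor.mul_m, Cor.mul_s, inn_m, inn_s, Cor.inv_m, Cor.inv_s, hx.1]
      rw [h1]
      simp only [tw, Bool.false_eq_true, if_false]
    rw [this, Matrix.SpecialLinearGroup.coe_mul, Matrix.SpecialLinearGroup.coe_mul,
      Matrix.SpecialLinearGroup.coe_transpose, hx.2]

theorem cj_mul (P : SL3 F) (x y : Cor F) : cj P (x * y) = cj P x * cj P y := by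
  simp only [cj]; group

theorem cj_one (P : SL3 F) : cj P (1 : Cor F) = 1 := by
  simp only [cj]; group

theorem cj_injective (P : SL3 F) : Function.Injective (cj P) := by
  intro x y h
  simpa [cj] using h

/-- `cj P` as an automorphism -/
def cjE (P : SL3 F) : Cor F ≃* Cor F := MulAut.conj ((inn P)⁻¹)

theorem cjE_apply (P : SL3 F) (x : Cor F) : cjE P x = cj P x := by
  simp [cjE, cj]

/-- base change for membership in a subgroup -/
theorem mem_map_cj {P : SL3 F} {X : Subgroup (Cor F)} {x : Cor F} :
    cj P x ∈ X.map (cjE P).toMonoidHom ↔ x ∈ X := by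
  constructor
  · rintro ⟨y, hy, h⟩
    have : cj P y = cj P x := by rw [← cjE_apply]; exact h
    rwa [← cj_injective P this]
  · intro h
    exact ⟨x, h, cjE_apply P x⟩

/-! ### commutation -/

/-- inner with inner -/
theorem comm_inner_iff {x y : Cor F} {A B : M3 F} (hx : Is x false A) (hy : Is y false B) :
    x * y = y * x ↔ A * B = B * A := by
  constructor
  · intro h
    have h1 := hx.mul_inner hy
    have h2 := hy.mul_inner hx
    rw [← h] at h2
    exact (h1.uniq h2).2
  · intro h
    have h1 := hx.mul_inner hy
    rw [h] at h1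
    exact h1.ext (hy.mul_inner hx)

/-- inner with outer -/
theorem comm_inner_outer_iff {x y : Cor F} {A B : M3 F} (hx : Is x false A) (hy : Is y true B) :
    x * y = y * x ↔ A.transpose * B * A = B := by
  have h1 : Is (x * y) true ((adjugate A).transpose * B) := hx.mul_outer hy
  have h2 : Is (y * x) true (B * A) := hy.mul_inner hx
  have key : (adjugate A).transpose * B = B * A ↔ A.transpose * B * A = B := by
    have e : A.transpose * (adjugate A).transpose = 1 := by
      rw [← Matrix.transpose_mul, adj_mul_self hx.det, Matrix.transpose_one]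
    have e' : (adjugate A).transpose * A.transpose = 1 := by
      rw [← Matrix.transpose_mul, mul_adj_self hx.det, Matrix.transpose_one]
    constructor
    · intro h
      rw [mul_assoc, ← h, ← mul_assoc, e, one_mul]
    · intro h
      calc (adjugate A).transpose * B = (adjugate A).transpose * (A.transpose * B * A) := by rw [h]
        _ = ((adjugate A).transpose * A.transpose) * (B * A) := by simp only [mul_assoc]
        _ = B * A := by rw [e', one_mul]
  rw [← key]
  constructor
  · intro h
    rw [← h] at h2
    exact (h1.uniq h2).2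
  · intro h
    rw [h] at h1
    exact h1.ext h2

/-- outer with outer, both symmetric -/
theorem comm_outer_iff {x y : Cor F} {A B : M3 F} (hx : Is x true A) (hy : Is y true B)
    (hA : A.transpose = A) (hB : B.transpose = B) :
    x * y = y * x ↔ B * adjugate A * B = A := by
  have h1 : Is (x * y) false ((adjugate A).transpose * B) := by simpa using hx.mul_outer hy
  have h2 : Is (y * x) false ((adjugate B).transpose * A) := by simpa using hy.mul_outer hx
  have eA : (adjugate A).transpose = adjugate A := by rw [adjugate_transpose, hA]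
  have eB : (adjugate B).transpose = adjugate B := by rw [adjugate_transpose, hB]
  rw [eA] at h1
  rw [eB] at h2
  have key : adjugate A * B = adjugate B * A ↔ B * adjugate A * B = A := by
    constructor
    · intro h
      rw [mul_assoc, h, ← mul_assoc, mul_adj_self hy.det, one_mul]
    · intro h
      calc adjugate A * B = (adjugate B * B) * (adjugate A * B) := by
            rw [adj_mul_self hy.det, one_mul]
        _ = adjugate B * (B * adjugate A * B) := by simp only [mul_assoc]
        _ = adjugate B * A := by rw [h]
  rw [← key]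
  constructor
  · intro h
    rw [← h] at h2
    exact (h1.uniq h2).2
  · intro h
    rw [h] at h1
    exact h1.ext h2

/-! ### involutions -/

/-- an inner involution -/
theorem inner_sq_iff {x : Cor F} {A : M3 F} (hx : Is x false A) : x * x = 1 ↔ A * A = 1 := by
  have h1 := hx.mul_inner hx
  constructor
  · intro h
    rw [h] at h1
    exact (h1.uniq is_one).2
  · intro h
    rw [h] at h1
    exact h1.ext is_one

/-- an outer involution -/
theorem outer_sq_iff {x : Cor F} {A : M3 F} (hx : Is x true A) :
    x * x = 1 ↔ A.transpose = A := by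
  have h1 : Is (x * x) false ((adjugate A).transpose * A) := by simpa using hx.mul_outer hx
  have e : A.transpose * (adjugate A).transpose = 1 := by
    rw [← Matrix.transpose_mul, adj_mul_self hx.det, Matrix.transpose_one]
  have e' : (adjugate A).transpose * A.transpose = 1 := by
    rw [← Matrix.transpose_mul, mul_adj_self hx.det, Matrix.transpose_one]
  constructor
  · intro h
    rw [h] at h1
    have h2 : (adjugate A).transpose * A = 1 := (h1.uniq is_one).2
    calc A.transpose = A.transpose * ((adjugate A).transpose * A) := by rw [h2, mul_one]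
      _ = A := by rw [← mul_assoc, e, one_mul]
  · intro h
    rw [h] at e'
    rw [e'] at h1
    exact h1.ext is_one

/-- the inverse of an inner element -/
theorem Is.inv_inner {x : Cor F} {A : M3 F} (hx : Is x false A) :
    Is x⁻¹ false (adjugate A) := by
  refine ⟨?_, ?_⟩
  · simp [hx.1]
  · rw [← hx.2]
    simp [hx.1, tw]

theorem dg_mul (a b c a' b' c' : F) : dg a b c * dg a' b' c' = dg (a * a') (b * b') (c * c') := by
  ext i j
  fin_cases i <;> fin_cases j <;> simp [dg, Matrix.mul_apply, Fin.sum_univ_three]

theorem dg_transpose (a b c : F) : (dg a b c).transpose = dg a b c := by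
  ext i j
  fin_cases i <;> fin_cases j <;> simp [dg]

theorem dg_one : dg (1 : F) 1 1 = 1 := by
  ext i j
  fin_cases i <;> fin_cases j <;> simp [dg]

theorem dg_det (a b c : F) : (dg a b c).det = a * b * c := by
  simp [dg, Matrix.det_fin_three]

theorem dg_inj {a b c a' b' c' : F} (h : dg a b c = dg a' b' c') : a = a' ∧ b = b' ∧ c = c' := by
  have h0 := congrFun (congrFun h 0) 0
  have h1 := congrFun (congrFun h 1) 1
  have h2 := congrFun (congrFun h 2) 2
  simp [dg] at h0 h1 h2
  exact ⟨h0, h1, h2⟩

/-- powers of diagonal elements -/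
theorem Is.pow_dg {x : Cor F} {a b c : F} (hx : Is x false (dg a b c)) (n : ℕ) :
    Is (x ^ n) false (dg (a ^ n) (b ^ n) (c ^ n)) := by
  induction n with
  | zero => simpa [dg_one] using (is_one (F := F))
  | succ n ih =>
    have := ih.mul_inner hx
    rw [dg_mul] at this
    simpa [pow_succ] using this

/-- in a finite field without primitive cube roots of unity every element is a cube -/
theorem exists_cube [Finite F] (hF : Good F) (x : F) : ∃ y : F, y ^ 3 = x := by
  have hinj : Function.Injective (fun y : F => y ^ 3) := by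
    intro y z h
    simp only at h
    by_cases hz : z = 0
    · subst hz
      have : y ^ 3 = 0 := by simpa using h
      exact pow_eq_zero_iff (by norm_num) |>.1 this
    · have : (y / z) ^ 3 = 1 := by
        rw [div_pow, h, div_self (pow_ne_zero 3 hz)]
      have := hF.2 _ this
      field_simp at this
      exact this
  exact (Finite.injective_iff_surjective.1 hinj) x

/-- cube roots are unique -/
theorem cube_inj (hF : Good F) {x y : F} (h : x ^ 3 = y ^ 3) : x = y := by
  by_cases hz : y = 0
  · subst hz
    have : x ^ 3 = 0 := by simpa using h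
    exact pow_eq_zero_iff (by norm_num) |>.1 this
  · have : (x / y) ^ 3 = 1 := by
      rw [div_pow, h, div_self (pow_ne_zero 3 hz)]
    have := hF.2 _ this
    field_simp at this
    exact this

/-- for nonzero `k` the number `k` is a power of `k ^ 3` -/
theorem pow_cube [Finite F] (hF : Good F) {k : F} (hk : k ≠ 0) : ∃ m : ℕ, (k ^ 3) ^ m = k := by
  have hfin : IsOfFinOrder (Units.mk0 k hk) := isOfFinOrder_of_finite _
  set u : Fˣ := Units.mk0 k hk with hu
  have hcop : Nat.Coprime (orderOf u) 3 := by
    rw [Nat.coprime_comm, Nat.Prime.coprime_iff_not_dvd Nat.prime_three]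
    intro hdvd
    obtain ⟨d, hd⟩ := hdvd
    have hdpos : 0 < d := by
      rcases Nat.eq_zero_or_pos d with h | h
      · subst h
        have := orderOf_pos_iff.2 hfin
        omega
      · exact h
    have h1 : (u ^ d) ^ 3 = 1 := by
      rw [← pow_mul, mul_comm d 3, ← hd, pow_orderOf_eq_one]
    have h2 : (((u ^ d : Fˣ) : F)) ^ 3 = 1 := by
      rw [← Units.val_pow_eq_pow_val, h1, Units.val_one]
    have h3 := hF.2 _ h2
    have h4 : u ^ d = 1 := Units.ext (by simpa using h3)
    have h5 : orderOf u ≤ d := orderOf_le_of_pow_eq_one hdpos h4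
    omega
  obtain ⟨m, hm⟩ := exists_pow_eq_self_of_coprime hcop.symm
  refine ⟨m, ?_⟩
  have := congrArg (fun x : Fˣ => (x : F)) hm
  simpa [hu] using this

end Pool.SCG
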