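import Pool.Agent.H24.SCG.Base

/-! Base change and reversal for `Str5`. -/

namespace Pool.SCG

theorem mem_closure_cj {F : Type*} [Field F] (P : SL3 F) (S : Set (Cor F)) (x : Cor F) :
    cj P x ∈ Subgroup.closure (cj P '' S) ↔ x ∈ Subgroup.closure S := by
  have h : Subgroup.closure (cj P '' S) = (Subgroup.closure S).map (cjE P).toMonoidHom := by
    rw [MonoidHom.map_closure]
    congr 1
    ext y
    constructor
    · rintro ⟨z, hz, rfl⟩
      exact ⟨z, hz, cjE_apply P z⟩
    · rintro ⟨z, hz, rfl⟩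
      exact ⟨z, hz, (cjE_apply P z).symm⟩
  rw [h, mem_map_cj]

theorem cj_surjective {F : Type*} [Field F] (P : SL3 F) (y : Cor F) : ∃ x, cj P x = y := by
  refine ⟨inn P * y * (inn P)⁻¹, ?_⟩
  simp only [cj]
  group

theorem bcj_thm : BCJStmt := by
  intro F _ P a b c d e h
  have hinj := cj_injective P
  have one : ∀ x : Cor F, x ≠ 1 ∧ x * x = 1 → cj P x ≠ 1 ∧ cj P x * cj P x = 1 := by
    rintro x ⟨h1, h2⟩
    refine ⟨fun h3 => h1 (hinj (h3.trans (cj_one P).symm)), ?_⟩
    rw [← cj_mul, h2, cj_one]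
  have com : ∀ x y : Cor F, x * y = y * x → cj P x * cj P y = cj P y * cj P x := by
    intro x y h3
    rw [← cj_mul, h3, cj_mul]
  have ncom : ∀ x y : Cor F, x * y ≠ y * x → cj P x * cj P y ≠ cj P y * cj P x := by
    intro x y h3 h4
    apply h3
    apply hinj
    rw [cj_mul, h4, cj_mul]
  have im2 : ∀ x y : Cor F, ({cj P x, cj P y} : Set (Cor F)) = cj P '' {x, y} := by
    intro x y; rw [Set.image_pair]
  have im3 : ∀ x y z : Cor F, ({cj P x, cj P y, cj P z} : Set (Cor F)) = cj P '' {x, y, z} := by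
    intro x y z; rw [Set.image_insert_eq, Set.image_pair]
  have im4 : ∀ x y z w : Cor F, ({cj P x, cj P y, cj P z, cj P w} : Set (Cor F))
      = cj P '' {x, y, z, w} := by
    intro x y z w; rw [Set.image_insert_eq, Set.image_insert_eq, Set.image_pair]
  refine ⟨one a h.ia, one b h.ib, one c h.ic, one d h.id, one e h.ie, com _ _ h.ac, com _ _ h.ad,
    com _ _ h.ae, com _ _ h.bd, com _ _ h.be, com _ _ h.ce, ncom _ _ h.ab, ncom _ _ h.bc,
    ncom _ _ h.cd, ncom _ _ h.de, ?_, ?_, ?_, ?_⟩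
  · rw [im4, mem_closure_cj]; exact h.v1
  · rw [im4, mem_closure_cj]; exact h.v2
  · intro x hx hx'
    obtain ⟨z, rfl⟩ := cj_surjective P x
    rw [im2, mem_closure_cj] at hx
    rw [im3, mem_closure_cj] at hx'
    rw [h.v3 z hx hx', cj_one]
  · intro x hx hx'
    obtain ⟨z, rfl⟩ := cj_surjective P x
    rw [im2, mem_closure_cj] at hx
    rw [im3, mem_closure_cj] at hx'
    rw [h.v4 z hx hx', cj_one]

theorem rev_thm : REVStmt := by
  intro F _ a b c d e h
  have s2 : ∀ x y : Cor F, ({x, y} : Set (Cor F)) = {y, x} := by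
    intro x y; ext z; simp only [Set.mem_insert_iff, Set.mem_singleton_iff]; tauto
  have s3 : ∀ x y z : Cor F, ({x, y, z} : Set (Cor F)) = {z, y, x} := by
    intro x y w; ext z; simp only [Set.mem_insert_iff, Set.mem_singleton_iff]; tauto
  have s4 : ∀ x y z w : Cor F, ({x, y, z, w} : Set (Cor F)) = {w, z, y, x} := by
    intro x y w v; ext z; simp only [Set.mem_insert_iff, Set.mem_singleton_iff]; tauto
  refine ⟨h.ie, h.id, h.ic, h.ib, h.ia, h.ce.symm, h.be.symm, h.ae.symm, h.bd.symm, h.ad.symm,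
    h.ac.symm, fun h1 => h.de h1.symm, fun h1 => h.cd h1.symm, fun h1 => h.bc h1.symm,
    fun h1 => h.ab h1.symm, ?_, ?_, ?_, ?_⟩
  · rw [s4]; exact h.v2
  · rw [s4]; exact h.v1
  · intro x hx hx'
    rw [s2] at hx
    rw [s3] at hx'
    exact h.v4 x hx hx'
  · intro x hx hx'
    rw [s2] at hx
    rw [s3] at hx'
    exact h.v3 x hx hx'

end Pool.SCG
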