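import Pool.Agent.H24.SCG.Base

/-! Assembly of case 2. -/

namespace Pool.SCG

open Matrix

variable {F : Type*} [Field F]

theorem dg_inv_mul {b1 b2 b3 : F} (h : b1 * b2 * b3 = 1) :
    dg b1 b2 b3 * dg b1⁻¹ b2⁻¹ b3⁻¹ = 1 := by
  have h1 : b1 ≠ 0 := by rintro rfl; simp at h
  have h2 : b2 ≠ 0 := by rintro rfl; simp at h
  have h3 : b3 ≠ 0 := by rintro rfl; simp at h
  rw [dg_mul, mul_inv_cancel₀ h1, mul_inv_cancel₀ h2, mul_inv_cancel₀ h3, dg_one]

/-- the homology `H1` is in `⟨a, c⟩` -/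
theorem exists_h1 {a c : Cor F} {b1 b2 b3 : F} (ha : Is a true (dg b1 b2 b3))
    (hc : Is c false (dg 1 (-1) (-1)) ∨ Is c true (dg b1 (-b2) (-b3))) :
    ∃ h ∈ Subgroup.closure ({a, c} : Set (Cor F)), Is h false (dg 1 (-1) (-1)) := by
  rcases hc with hc | hc
  · exact ⟨c, Subgroup.subset_closure (by simp), hc⟩
  · have hdet : b1 * b2 * b3 = 1 := by rw [← dg_det]; exact ha.det
    have h1 : b1 ≠ 0 := by rintro rfl; simp at hdet
    have h2 : b2 ≠ 0 := by rintro rfl; simp at hdet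
    have h3 : b3 ≠ 0 := by rintro rfl; simp at hdet
    refine ⟨a * c, mul_mem (Subgroup.subset_closure (by simp))
      (Subgroup.subset_closure (by simp)), ?_⟩
    have := ha.mul_outer' hc (dg_inv_mul hdet)
    rw [dg_transpose, dg_mul] at this
    have e1 : b1⁻¹ * b1 = 1 := inv_mul_cancel₀ h1
    have e2 : b2⁻¹ * -b2 = -1 := by rw [mul_neg, inv_mul_cancel₀ h2]
    have e3 : b3⁻¹ * -b3 = -1 := by rw [mul_neg, inv_mul_cancel₀ h3]
    rw [e1, e2, e3] at this
    exact this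

theorem c2_thm (hBCJ : BCJStmt) (hC2H : C2HStmt) (hC2A : C2AStmt) (hC2B : C2BStmt)
    (hC2E : C2EStmt) (hC2D : C2DStmt) (hC2W : C2WStmt) (hC2F : C2FStmt) (hC2G : C2GStmt)
    (hC2C : C2CStmt) (hC2X : C2XStmt) (hC2S : C2SStmt) (hMONA : MONAStmt) (hMONB : MONBStmt) :
    C2Stmt := by
  intro F _ _ hF a b c d e b1 b2 b3 hS hN
  have hdet : b1 * b2 * b3 = 1 := by rw [← dg_det]; exact hN.ha.det
  obtain ⟨h, hhm, hh⟩ := exists_h1 hN.ha hN.hc
  -- inclusions of subgroups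
  have hle1 : Subgroup.closure ({a, c} : Set (Cor F)) ≤ Subgroup.closure {a, b, c, d} := by
    apply Subgroup.closure_mono
    intro x hx
    simp only [Set.mem_insert_iff, Set.mem_singleton_iff] at hx ⊢
    tauto
  set X : Subgroup (Cor F) := Subgroup.closure {a, b, c, d} with hX
  have haX : a ∈ X := Subgroup.subset_closure (by simp)
  have hbX : b ∈ X := Subgroup.subset_closure (by simp)
  have hdX : d ∈ X := Subgroup.subset_closure (by simp)
  have hhX : h ∈ X := hle1 hhm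
  have cube1 : ∀ k : F, k ^ 6 = 1 → k ^ 2 = 1 := by
    intro k hk
    apply hF.2
    rw [← pow_mul]
    exact hk
  by_cases hb : b.s = false
  · exact hC2H F hF a b c d e b1 b2 b3 hS hN hb
  have hb' : b.s = true := by simpa using hb
  by_cases hd : d.s = false
  · obtain ⟨w1, w2, w3, hw3, hq, hdd, hcase⟩ := hC2A F hF a b c d e b1 b2 b3 hS hN hb' hd
    rcases hcase with ⟨κ, hκ, hw, hom, hbb⟩ | ⟨k, hk2, hk0, hom, hbb⟩
    · exact hS.v1 (hC2E F hF X a b h e b1 b2 b3 w1 w2 κ haX hbX hhX hN.ha hbb hh hN.he hκ hw hom)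
    · have hw1 : w1 ≠ 0 := hC2W F hF a b c d e b1 b2 b3 w1 w2 w3 hS hN (Or.inl hdd) hq
      have hk26 : (k⁻¹ ^ 2) ^ 2 ≠ k ^ 2 := by
        intro h6
        apply hk2
        apply cube1
        have : k ^ 4 * (k⁻¹ ^ 2) ^ 2 = 1 := by
          field_simp
        rw [h6] at this
        calc k ^ 6 = k ^ 4 * k ^ 2 := by ring
          _ = 1 := this
      by_cases hw2 : w2 = 0
      · subst hw2
        have hom' : b1 * w1 ^ 2 ≠ 0 := by simpa using hom
        have hcs := hC2C F hF a b c d e b1 b2 b3 w1 _ _ _ hS hN hbb hom'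
        have hq' : b1 * w1 ^ 2 + b3 * w3 ^ 2 ≠ 0 := by simpa using hq
        exact hC2F F hF a b c d e b1 b2 b3 w1 w3 hS hN hdd hq' hcs
      · by_cases heq : b1 * w1 ^ 2 = b2 * w2 ^ 2
        · by_cases heq2 : b1 * w1 ^ 2 + b2 * w2 ^ 2 = b3 * w3 ^ 2
          · obtain ⟨P, hPa, hPb, hPc, hPc', hPd, hPd', hPe⟩ :=
              hC2S F hF b1 b2 b3 w1 w2 w3 hdet hw1 hw2 hw3 heq heq2
            have hS' := hBCJ F P a b c d e hS
            apply hS'.v2
            apply hMONA F hF _ (cj P a) (cj P b) (cj P c) (cj P d) k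
              (Subgroup.subset_closure (by simp)) (Subgroup.subset_closure (by simp))
              (Subgroup.subset_closure (by simp)) hk0 (hPa a hN.ha) (hPb b _ _ _ hbb)
              (hN.hc.imp (hPc c) (hPc' c)) (hPd d hdd)
          · exact hS.v1 (hC2X F hF X a b h d e b1 b2 b3 w1 w2 w3 k haX hbX hhX hdX hN.ha hbb hh hdd
              hN.he hw1 hw2 hw3 hk0 hk2 heq heq2 hq)
        · exact hS.v1 (hC2D F hF X a b h e b1 b2 b3 w1 w2 _ _ _ haX hbX hhX hN.ha hbb hh hN.he hom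
            hw1 hw2 hk26 heq)
  · have hd' : d.s = true := by simpa using hd
    obtain ⟨w1, w2, w3, hw3, hq, hdd, hcase⟩ := hC2B F hF a b c d e b1 b2 b3 hS hN hb' hd'
    rcases hcase with ⟨κ, hκ, hw, hom, hbb⟩ | ⟨k, hk2, hk0, hom, hbb⟩
    · exact hS.v1 (hC2E F hF X a b h e b1 b2 b3 w1 w2 κ haX hbX hhX hN.ha hbb hh hN.he hκ hw hom)
    · have hw1 : w1 ≠ 0 := hC2W F hF a b c d e b1 b2 b3 w1 w2 w3 hS hN (Or.inr hdd) hq
      have hb3 : b3 ≠ 0 := by rintro rfl; simp at hdet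
      have hom0 : b1 * w1 ^ 2 + b2 * w2 ^ 2 ≠ 0 := by
        rw [hom]
        exact mul_ne_zero hb3 (pow_ne_zero 2 hw3)
      have hk1 : (1 : F) ^ 2 ≠ k⁻¹ ^ 2 := by
        intro h6
        apply hk2
        have : k ^ 2 * k⁻¹ ^ 2 = 1 := by field_simp
        rw [← h6] at this
        simpa using this
      by_cases hw2 : w2 = 0
      · subst hw2
        have hom' : b1 * w1 ^ 2 ≠ 0 := by simpa using hom0
        have hcs := hC2C F hF a b c d e b1 b2 b3 w1 _ _ _ hS hN hbb hom'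
        have hom2 : b1 * w1 ^ 2 = b3 * w3 ^ 2 := by simpa using hom
        exact hC2G F hF a b c d e b1 b2 b3 w1 w3 hS hN hdd hom2 hw3 hcs
      · by_cases heq : b1 * w1 ^ 2 = b2 * w2 ^ 2
        · obtain ⟨P, hPa, hPb, hPc, hPc', hPd, hPd', hPe⟩ :=
            hC2S F hF b1 b2 b3 w1 w2 w3 hdet hw1 hw2 hw3 heq hom
          have hS' := hBCJ F P a b c d e hS
          apply hS'.v2
          apply hMONB F hF _ (cj P a) (cj P b) (cj P c) (cj P d) k
            (Subgroup.subset_closure (by simp)) (Subgroup.subset_closure (by simp))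
            (Subgroup.subset_closure (by simp)) hk0 (hPa a hN.ha) (hPb b _ _ _ hbb)
            (hN.hc.imp (hPc c) (hPc' c)) (hPd' d hdd)
        · exact hS.v1 (hC2D F hF X a b h e b1 b2 b3 w1 w2 _ _ _ haX hbX hhX hN.ha hbb hh hN.he hom0
            hw1 hw2 hk1 heq)

end Pool.SCG
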