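import Mathlib

/-!
String C-groups with socle `PSL(3,q)`: definitions.

`SL3 F` is the group `SL(3,F)`, `Cor F` is its extension by the inverse transpose map,
`iota F : Cor F →* MulAut (SL3 F)` its action on `SL3 F`.
-/

namespace Pool.SCG

open Matrix

/-! ### String C-groups -/

/-- `ρ` is a string C-group representation of rank `r` of the group it generates:
involutions, string property, intersection property. -/
structure IsStringC {A : Type*} [Group A] (r : ℕ) (ρ : Fin r → A) : Prop where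
  invol : ∀ i, orderOf (ρ i) = 2
  comm : ∀ i j : Fin r, i.val + 2 ≤ j.val → ρ i * ρ j = ρ j * ρ i
  inter : ∀ I J : Set (Fin r),
    Subgroup.closure (ρ '' I) ⊓ Subgroup.closure (ρ '' J) = Subgroup.closure (ρ '' (I ∩ J))

/-- The subgroup `G` admits a string C-group representation of rank `r`. -/
def HasStringC {A : Type*} [Group A] (G : Subgroup A) (r : ℕ) : Prop :=
  ∃ ρ : Fin r → A, IsStringC r ρ ∧ Subgroup.closure (Set.range ρ) = G

/-! ### `SL(3,F)` and its automorphisms -/

/-- the group `SL(3,F)` -/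
abbrev SL3 (F : Type*) [Field F] := Matrix.SpecialLinearGroup (Fin 3) F

section aut

variable {F : Type*} [Field F]

/-- inverse transpose on `SL(3,F)` -/
def it (m : SL3 F) : SL3 F := (m⁻¹).transpose

theorem tr_mul (m n : SL3 F) : (m * n).transpose = n.transpose * m.transpose := by
  apply Subtype.ext
  simp [Matrix.SpecialLinearGroup.coe_transpose, Matrix.transpose_mul]

theorem tr_tr (m : SL3 F) : m.transpose.transpose = m := by
  apply Subtype.ext
  simp [Matrix.SpecialLinearGroup.coe_transpose]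

theorem tr_one : (1 : SL3 F).transpose = 1 := by
  apply Subtype.ext
  simp [Matrix.SpecialLinearGroup.coe_transpose]

theorem tr_inv (m : SL3 F) : (m⁻¹).transpose = (m.transpose)⁻¹ := by
  rw [eq_inv_iff_mul_eq_one, ← tr_mul, mul_inv_cancel, tr_one]

theorem it_mul (m n : SL3 F) : it (m * n) = it m * it n := by
  simp only [it, _root_.mul_inv_rev, tr_mul]

theorem it_one : it (1 : SL3 F) = 1 := by
  simp only [it, inv_one, tr_one]

theorem it_inv (m : SL3 F) : it m⁻¹ = (it m)⁻¹ := by
  simp only [it, tr_inv]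

theorem it_it (m : SL3 F) : it (it m) = m := by
  simp only [it, ← tr_inv, tr_tr, inv_inv]

/-- the graph automorphism: inverse transpose -/
def graphAut (F : Type*) [Field F] : MulAut (SL3 F) where
  toFun := it
  invFun := it
  left_inv := it_it
  right_inv := it_it
  map_mul' := it_mul

/-- the diagonal automorphism: conjugation with an element of `GL(3,F)` -/
def diagAut (P : GL (Fin 3) F) : MulAut (SL3 F) where
  toFun g := ⟨P.1 * g.1 * (P⁻¹).1, by
    rw [Matrix.det_mul, Matrix.det_mul, g.2, mul_one, ← Matrix.det_mul, ← Units.val_mul,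
      mul_inv_cancel, Units.val_one, Matrix.det_one]⟩
  invFun g := ⟨(P⁻¹).1 * g.1 * P.1, by
    rw [Matrix.det_mul, Matrix.det_mul, g.2, mul_one, ← Matrix.det_mul, ← Units.val_mul,
      inv_mul_cancel, Units.val_one, Matrix.det_one]⟩
  left_inv g := by
    apply Subtype.ext
    have h : (P⁻¹).1 * P.1 = 1 := by rw [← Units.val_mul, inv_mul_cancel, Units.val_one]
    show (P⁻¹).1 * (P.1 * g.1 * (P⁻¹).1) * P.1 = g.1
    calc (P⁻¹).1 * (P.1 * g.1 * (P⁻¹).1) * P.1
        = ((P⁻¹).1 * P.1) * g.1 * ((P⁻¹).1 * P.1) := by simp only [mul_assoc]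
      _ = g.1 := by rw [h, one_mul, mul_one]
  right_inv g := by
    apply Subtype.ext
    have h : P.1 * (P⁻¹).1 = 1 := by rw [← Units.val_mul, mul_inv_cancel, Units.val_one]
    show P.1 * ((P⁻¹).1 * g.1 * P.1) * (P⁻¹).1 = g.1
    calc P.1 * ((P⁻¹).1 * g.1 * P.1) * (P⁻¹).1
        = (P.1 * (P⁻¹).1) * g.1 * (P.1 * (P⁻¹).1) := by simp only [mul_assoc]
      _ = g.1 := by rw [h, one_mul, mul_one]
  map_mul' g h := by
    apply Subtype.ext
    have e : (P⁻¹).1 * P.1 = 1 := by rw [← Units.val_mul, inv_mul_cancel, Units.val_one]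
    show P.1 * (g.1 * h.1) * (P⁻¹).1 = (P.1 * g.1 * (P⁻¹).1) * (P.1 * h.1 * (P⁻¹).1)
    calc P.1 * (g.1 * h.1) * (P⁻¹).1
        = P.1 * g.1 * 1 * h.1 * (P⁻¹).1 := by simp only [mul_assoc, mul_one]
      _ = P.1 * g.1 * ((P⁻¹).1 * P.1) * h.1 * (P⁻¹).1 := by rw [e]
      _ = _ := by simp only [mul_assoc]

/-- the field automorphism: apply `σ` to all entries -/
def fieldAut (σ : F ≃+* F) : MulAut (SL3 F) where
  toFun g := Matrix.SpecialLinearGroup.map (σ : F →+* F) g
  invFun g := Matrix.SpecialLinearGroup.map (σ.symm : F →+* F) g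
  left_inv g := by
    apply Subtype.ext
    ext i j
    simp
  right_inv g := by
    apply Subtype.ext
    ext i j
    simp
  map_mul' g h := map_mul _ g h

/-- the inner automorphisms of `SL(3,F)` -/
def Inn (F : Type*) [Field F] : Subgroup (MulAut (SL3 F)) := (MulAut.conj : SL3 F →* _).range

/-- the automorphism group generated by the inner, diagonal, field and graph automorphisms -/
def AutG (F : Type*) [Field F] : Subgroup (MulAut (SL3 F)) :=
  Subgroup.closure (Set.range (MulAut.conj : SL3 F → MulAut (SL3 F)) ∪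
    Set.range (diagAut : GL (Fin 3) F → MulAut (SL3 F)) ∪
    Set.range (fieldAut : (F ≃+* F) → MulAut (SL3 F)) ∪ {graphAut F})

/-- the group generated by the inner automorphisms and the graph automorphism -/
def GraphExt (F : Type*) [Field F] : Subgroup (MulAut (SL3 F)) :=
  Subgroup.closure (Set.range (MulAut.conj : SL3 F → MulAut (SL3 F)) ∪ {graphAut F})

/-! ### The concrete extension -/

/-- Elements of `SL(3,F)` extended by the inverse transpose `θ`: the pair `(m,s)` stands for
`θ ^ s * m`. -/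
@[ext] structure Cor (F : Type*) [Field F] where
  m : SL3 F
  s : Bool

/-- `θ ^ (-s) * m * θ ^ s` -/
def tw (s : Bool) (m : SL3 F) : SL3 F := if s then it m else m

theorem tw_mul (s : Bool) (m n : SL3 F) : tw s (m * n) = tw s m * tw s n := by
  cases s <;> simp [tw, it_mul]

theorem tw_one (s : Bool) : tw s (1 : SL3 F) = 1 := by
  cases s <;> simp [tw, it_one]

theorem tw_inv (s : Bool) (m : SL3 F) : tw s m⁻¹ = (tw s m)⁻¹ := by
  cases s <;> simp [tw, it_inv]

theorem tw_tw (s t : Bool) (m : SL3 F) : tw s (tw t m) = tw (xor s t) m := by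
  cases s <;> cases t <;> simp [tw, it_it]

instance : Mul (Cor F) := ⟨fun x y => ⟨tw y.s x.m * y.m, xor x.s y.s⟩⟩
instance : One (Cor F) := ⟨⟨1, false⟩⟩
instance : Inv (Cor F) := ⟨fun x => ⟨(tw x.s x.m)⁻¹, x.s⟩⟩

theorem Cor.mul_def (x y : Cor F) : x * y = ⟨tw y.s x.m * y.m, xor x.s y.s⟩ := rfl
theorem Cor.one_def : (1 : Cor F) = ⟨1, false⟩ := rfl
theorem Cor.inv_def (x : Cor F) : x⁻¹ = ⟨(tw x.s x.m)⁻¹, x.s⟩ := rfl
@[simp] theorem Cor.mul_m (x y : Cor F) : (x * y).m = tw y.s x.m * y.m := rfl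
@[simp] theorem Cor.mul_s (x y : Cor F) : (x * y).s = xor x.s y.s := rfl
@[simp] theorem Cor.one_m : (1 : Cor F).m = 1 := rfl
@[simp] theorem Cor.one_s : (1 : Cor F).s = false := rfl
@[simp] theorem Cor.inv_m (x : Cor F) : (x⁻¹).m = (tw x.s x.m)⁻¹ := rfl
@[simp] theorem Cor.inv_s (x : Cor F) : (x⁻¹).s = x.s := rfl

instance : Group (Cor F) := Group.ofLeftAxioms
  (by
    intro a b c
    apply Cor.ext
    · simp only [Cor.mul_m, Cor.mul_s, tw_mul, tw_tw, mul_assoc]
      rw [Bool.xor_comm b.s c.s]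
    · simp [Cor.mul_s])
  (by
    intro a
    apply Cor.ext
    · simp only [Cor.mul_m, Cor.one_m, tw_one, one_mul]
    · simp)
  (by
    intro a
    apply Cor.ext
    · simp only [Cor.mul_m, Cor.inv_m, Cor.one_m, tw_inv, tw_tw]
      cases a.s <;> simp [tw, it_it]
    · simp)

instance finite_cor [Finite F] : Finite (Cor F) :=
  Finite.of_injective (fun x : Cor F => (x.m, x.s)) (by
    intro x y h
    simp only [Prod.mk.injEq] at h
    exact Cor.ext h.1 h.2)

/-- the inner element attached to `m` -/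
def inn (m : SL3 F) : Cor F := ⟨m, false⟩

@[simp] theorem inn_m (m : SL3 F) : (inn m).m = m := rfl
@[simp] theorem inn_s (m : SL3 F) : (inn m).s = false := rfl

theorem inn_mul (m n : SL3 F) : inn (m * n) = inn m * inn n := by
  apply Cor.ext <;> simp [tw]

end aut

section act

variable (F : Type*) [Field F]

/-- the action of `Cor F` on `SL3 F` -/
def iota : Cor F →* MulAut (SL3 F) where
  toFun x :=
    { toFun := fun g => tw x.s (x.m * g * x.m⁻¹)
      invFun := fun g => x.m⁻¹ * tw x.s g * x.m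
      left_inv := by
        intro g
        show x.m⁻¹ * tw x.s (tw x.s (x.m * g * x.m⁻¹)) * x.m = g
        rw [tw_tw, Bool.xor_self]
        simp [tw, mul_assoc]
      right_inv := by
        intro g
        show tw x.s (x.m * (x.m⁻¹ * tw x.s g * x.m) * x.m⁻¹) = g
        have : x.m * (x.m⁻¹ * tw x.s g * x.m) * x.m⁻¹ = tw x.s g := by group
        rw [this, tw_tw, Bool.xor_self]
        simp [tw]
      map_mul' := by
        intro g h
        show tw x.s (x.m * (g * h) * x.m⁻¹) = tw x.s (x.m * g * x.m⁻¹) * tw x.s (x.m * h * x.m⁻¹)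
        rw [← tw_mul]
        congr 1
        group }
  map_one' := by
    ext g : 1
    show tw (1 : Cor F).s ((1 : Cor F).m * g * ((1 : Cor F).m)⁻¹) = g
    simp [tw]
  map_mul' x y := by
    ext g : 1
    show tw (x * y).s ((x * y).m * g * ((x * y).m)⁻¹)
      = tw x.s (x.m * tw y.s (y.m * g * y.m⁻¹) * x.m⁻¹)
    have h : x.m * tw y.s (y.m * g * y.m⁻¹) * x.m⁻¹
        = tw y.s (tw y.s x.m * (y.m * g * y.m⁻¹) * (tw y.s x.m)⁻¹) := by
      rw [tw_mul y.s (tw y.s x.m * (y.m * g * y.m⁻¹)), tw_mul y.s (tw y.s x.m), tw_inv, tw_tw,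
        Bool.xor_self]
      rfl
    rw [h, tw_tw]
    simp only [Cor.mul_m, Cor.mul_s, _root_.mul_inv_rev]
    congr 1
    group

theorem iota_apply (x : Cor F) (g : SL3 F) : iota F x g = tw x.s (x.m * g * x.m⁻¹) := rfl

end act

end Pool.SCG
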