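import Pool.Agent.H24.SCG.Base

/-! The final theorem from the upper bound and the existence. -/

namespace Pool.SCG

theorem inn_le_graphExt (F : Type) [Field F] : Inn F ≤ GraphExt F := by
  rintro x ⟨g, rfl⟩
  exact Subgroup.subset_closure (Or.inl ⟨g, rfl⟩)

theorem graphExt_le_autG (F : Type) [Field F] : GraphExt F ≤ AutG F := by
  apply Subgroup.closure_mono
  rintro x (hx | hx)
  · exact Or.inl (Or.inl (Or.inl hx))
  · exact Or.inr hx

theorem fin_thm (hUPP : UPPStmt) (hEX : EXStmt) (hGOO : GOOStmt) (hIOT : IOTStmt) : FINStmt := by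
  intro F _ _ hq
  refine ⟨(hIOT F (hGOO F hq).1).2.2.2, ?_, ?_, ?_⟩
  · intro G h1 h2
    constructor
    · rintro ⟨r, hr⟩
      exact (hUPP F hq G r h1 h2 hr).1
    · rintro rfl
      exact ⟨4, hEX F hq⟩
  · exact hEX F hq
  · intro r hr
    exact (hUPP F hq (GraphExt F) r (inn_le_graphExt F) (graphExt_le_autG F) hr).2

end Pool.SCG
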