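import Pool.Agent.H24.SCG.Base

/-! Involutions of `Cor F`, commuting homologies, homologies and polarities. -/

namespace Pool.SCG

open Matrix

theorem hom_aux {F : Type*} [Field F] (h2 : (2 : F) ≠ 0) (A : M3 F) (hsq : A * A = 1)
    (i : Fin 3) (hi : (A + 1) i i ≠ 0)
    (hm : ∀ k l, (A + 1) k l * (A + 1) i i = (A + 1) k i * (A + 1) i l) :
    ∃ v φ : Fin 3 → F, φ ⬝ᵥ v = 1 ∧ A = (2 : F) • Matrix.vecMulVec v φ - 1 := by
  refine ⟨fun k => (A + 1) k i, fun l => (2 * (A + 1) i i)⁻¹ * (A + 1) i l, ?_, ?_⟩
  · have h : (A + 1) * (A + 1) = (2 : F) • (A + 1) := by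
      rw [mul_add, add_mul, add_mul, hsq, two_smul]
      simp only [mul_one, one_mul]
      abel
    have h' := congrFun (congrFun h i) i
    rw [Matrix.mul_apply, Matrix.smul_apply, smul_eq_mul] at h'
    have h3 : (fun l => (2 * (A + 1) i i)⁻¹ * (A + 1) i l) ⬝ᵥ (fun k => (A + 1) k i)
        = (2 * (A + 1) i i)⁻¹ * ∑ l, (A + 1) i l * (A + 1) l i := by
      rw [Finset.mul_sum]
      apply Finset.sum_congr rfl
      intro l _
      ring
    rw [h3, h']
    exact inv_mul_cancel₀ (mul_ne_zero h2 hi)
  · have h : A + 1 = (2 : F) • Matrix.vecMulVec (fun k => (A + 1) k i)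
        (fun l => (2 * (A + 1) i i)⁻¹ * (A + 1) i l) := by
      ext k l
      rw [Matrix.smul_apply, Matrix.vecMulVec_apply, smul_eq_mul]
      have := hm k l
      have h4 : (2 : F) * ((A + 1) k i * ((2 * (A + 1) i i)⁻¹ * (A + 1) i l))
          = (A + 1) k i * (A + 1) i l * ((A + 1) i i)⁻¹ := by
        rw [mul_inv]
        field_simp
      rw [h4, ← this, mul_assoc, mul_inv_cancel₀ hi, mul_one]
    rw [← h]
    abel

/-- an involution of determinant one of `F^3` in characteristic not two: `m = 2 v φ - 1` -/
theorem hom_of_inv {F : Type*} [Field F] (h2 : (2 : F) ≠ 0) (A : M3 F) (hdet : A.det = 1)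
    (hsq : A * A = 1) (hne : A ≠ 1) :
    ∃ v φ : Fin 3 → F, φ ⬝ᵥ v = 1 ∧ A = (2 : F) • Matrix.vecMulVec v φ - 1 := by
  have hadj : adjugate A = A := adj_unique hdet hsq
  have e := fun i j => congrFun (congrFun hadj i) j
  have s := fun i j => congrFun (congrFun hsq i) j
  have e00 := e 0 0
  have e11 := e 1 1
  have e22 := e 2 2
  have e01 := e 0 1
  have e02 := e 0 2
  have e10 := e 1 0
  have e12 := e 1 2
  have e20 := e 2 0
  have e21 := e 2 1
  rw [adjugate_fin_three] at e00 e11 e22 e01 e02 e10 e12 e20 e21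
  simp at e00 e11 e22 e01 e02 e10 e12 e20 e21
  have s00 := s 0 0
  have s11 := s 1 1
  have s22 := s 2 2
  have s01 := s 0 1
  have s02 := s 0 2
  have s10 := s 1 0
  have s12 := s 1 2
  have s20 := s 2 0
  have s21 := s 2 1
  simp [Matrix.mul_apply, Fin.sum_univ_three] at s00 s11 s22 s01 s02 s10 s12 s20 s21
  -- the trace is `-1`
  have ht : A 0 0 + A 1 1 + A 2 2 + 1 = 0 := by
    by_contra ht
    apply hne
    have c : ∀ x : F, (A 0 0 + A 1 1 + A 2 2 + 1) * x = 0 → x = 0 := fun x hx =>
      (mul_eq_zero.1 hx).resolve_left ht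
    have d0 : A 0 0 - 1 = 0 := c _ (by linear_combination s00 + e11 + e22)
    have d1 : A 1 1 - 1 = 0 := c _ (by linear_combination s11 + e00 + e22)
    have d2 : A 2 2 - 1 = 0 := c _ (by linear_combination s22 + e00 + e11)
    have o01 : A 0 1 = 0 := c _ (by linear_combination s01 - e01)
    have o02 : A 0 2 = 0 := c _ (by linear_combination s02 - e02)
    have o10 : A 1 0 = 0 := c _ (by linear_combination s10 - e10)
    have o12 : A 1 2 = 0 := c _ (by linear_combination s12 - e12)
    have o20 : A 2 0 = 0 := c _ (by linear_combination s20 - e20)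
    have o21 : A 2 1 = 0 := c _ (by linear_combination s21 - e21)
    ext i j
    fin_cases i <;> fin_cases j <;> simp [*, sub_eq_zero.1 d0, sub_eq_zero.1 d1, sub_eq_zero.1 d2]
  have hd : (A + 1) 0 0 ≠ 0 ∨ (A + 1) 1 1 ≠ 0 ∨ (A + 1) 2 2 ≠ 0 := by
    by_contra h
    push Not at h
    obtain ⟨h0, h1, h3⟩ := h
    simp at h0 h1 h3
    apply h2
    linear_combination h0 + h1 + h3 - ht
  rcases hd with hi | hi | hi
  · refine hom_aux h2 A hsq 0 hi ?_
    intro k l
    fin_cases k <;> fin_cases l <;> simp
    all_goals first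
      | ring1
      | linear_combination e00 + ht
      | linear_combination e11 + ht
      | linear_combination e22 + ht
      | linear_combination e01
      | linear_combination -e01
      | linear_combination e02
      | linear_combination -e02
      | linear_combination e10
      | linear_combination -e10
      | linear_combination e12
      | linear_combination -e12
      | linear_combination e20
      | linear_combination -e20
      | linear_combination e21
      | linear_combination -e21
  · refine hom_aux h2 A hsq 1 hi ?_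
    intro k l
    fin_cases k <;> fin_cases l <;> simp
    all_goals first
      | ring1
      | linear_combination e00 + ht
      | linear_combination e11 + ht
      | linear_combination e22 + ht
      | linear_combination e01
      | linear_combination -e01
      | linear_combination e02
      | linear_combination -e02
      | linear_combination e10
      | linear_combination -e10
      | linear_combination e12
      | linear_combination -e12
      | linear_combination e20
      | linear_combination -e20
      | linear_combination e21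
      | linear_combination -e21
  · refine hom_aux h2 A hsq 2 hi ?_
    intro k l
    fin_cases k <;> fin_cases l <;> simp
    all_goals first
      | ring1
      | linear_combination e00 + ht
      | linear_combination e11 + ht
      | linear_combination e22 + ht
      | linear_combination e01
      | linear_combination -e01
      | linear_combination e02
      | linear_combination -e02
      | linear_combination e10
      | linear_combination -e10
      | linear_combination e12
      | linear_combination -e12
      | linear_combination e20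
      | linear_combination -e20
      | linear_combination e21
      | linear_combination -e21

theorem inv_thm : INVStmt := by
  intro F _ h2 x hne hsq
  by_cases hs : x.s = false
  · left
    have hx : Is x false (x.m : M3 F) := ⟨hs, rfl⟩
    have h1 := (inner_sq_iff hx).1 hsq
    have h3 : (x.m : M3 F) ≠ 1 := by
      intro h
      apply hne
      exact Is.ext (s := false) (A := 1) ⟨hs, h⟩ is_one
    obtain ⟨v, φ, h4, h5⟩ := hom_of_inv h2 _ x.m.2 h1 h3
    exact ⟨v, φ, hs, h4, h5⟩
  · right
    have hs' : x.s = true := by simpa using hs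
    exact ⟨hs', (outer_sq_iff (⟨hs', rfl⟩ : Is x true (x.m : M3 F))).1 hsq⟩

/-! ### homologies -/

section hom

variable {F : Type*} [Field F]

theorem IsHom.is {x : Cor F} {v φ : Fin 3 → F} (h : IsHom x v φ) :
    Is x false ((2 : F) • Matrix.vecMulVec v φ - 1) := ⟨h.1, h.2.2⟩

/-- commuting rank one matrices -/
theorem hom_comm {v φ v' φ' : Fin 3 → F} (h2 : (2 : F) ≠ 0)
    (h : ((2 : F) • Matrix.vecMulVec v φ - 1) * ((2 : F) • Matrix.vecMulVec v' φ' - 1)
      = ((2 : F) • Matrix.vecMulVec v' φ' - 1) * ((2 : F) • Matrix.vecMulVec v φ - 1)) :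
    ∀ i j, (φ ⬝ᵥ v') * (v i * φ' j) = (φ' ⬝ᵥ v) * (v' i * φ j) := by
  have h3 : (2 : F) • Matrix.vecMulVec v φ * ((2 : F) • Matrix.vecMulVec v' φ')
      = (2 : F) • Matrix.vecMulVec v' φ' * ((2 : F) • Matrix.vecMulVec v φ) := by
    have e1 : ∀ A B : M3 F, (A - 1) * (B - 1) = (B - 1) * (A - 1) → A * B = B * A := by
      intro A B hAB
      have e2 : (A - 1) * (B - 1) = A * B - A - B + 1 := by noncomm_ring
      have e3 : (B - 1) * (A - 1) = B * A - A - B + 1 := by noncomm_ring
      rw [e2, e3] at hAB
      have := congrArg (fun M => M - 1 + B + A) hAB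
      simpa using this
    exact e1 _ _ h
  intro i j
  rw [Matrix.smul_mul, Matrix.mul_smul, Matrix.smul_mul, Matrix.mul_smul] at h3
  have h4 := congrFun (congrFun h3 i) j
  rw [Matrix.vecMulVec_mul_vecMulVec, Matrix.vecMulVec_mul_vecMulVec] at h4
  simp only [Matrix.smul_apply, smul_eq_mul, Matrix.vecMulVec_apply, Pi.smul_apply] at h4
  have h5 := mul_left_cancel₀ h2 (mul_left_cancel₀ h2 h4)
  linear_combination h5

theorem hcm_thm : HCMStmt := by
  intro F _ h2 x y v φ v' φ' hx hy hc hne
  have h1 := (comm_inner_iff hx.is hy.is).1 hc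
  have h3 := hom_comm h2 h1
  have hv : φ ⬝ᵥ v = 1 := hx.2.1
  have hv' : φ' ⬝ᵥ v' = 1 := hy.2.1
  -- sum the identity against vectors
  have key : ∀ (i : Fin 3) (u : Fin 3 → F), (φ ⬝ᵥ v') * (v i * (φ' ⬝ᵥ u))
      = (φ' ⬝ᵥ v) * (v' i * (φ ⬝ᵥ u)) := by
    intro i u
    have := h3 i
    simp only [dotProduct, Fin.sum_univ_three] at this ⊢
    linear_combination u 0 * this 0 + u 1 * this 1 + u 2 * this 2
  by_cases h0 : φ ⬝ᵥ v' = 0
  · refine ⟨h0, ?_⟩
    by_contra h4
    have h5 : ∀ i, v' i = 0 := by
      intro i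
      have := key i v
      rw [h0, hv, zero_mul, mul_one] at this
      exact (mul_eq_zero.1 this.symm).resolve_left h4
    have : φ' ⬝ᵥ v' = 0 := by
      simp [dotProduct, h5]
    rw [this] at hv'
    exact zero_ne_one hv'
  · exfalso
    -- then v and v' are proportional, and so are φ and φ'
    have k1 : ∀ i, v i * 1 = (φ' ⬝ᵥ v) * v' i := by
      intro i
      have := key i v'
      rw [hv'] at this
      have e : (φ ⬝ᵥ v') * (v i * 1) = (φ ⬝ᵥ v') * ((φ' ⬝ᵥ v) * v' i) := by
        rw [this]; ring
      exact mul_left_cancel₀ h0 e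
    set c := φ' ⬝ᵥ v with hc'
    have hc0 : c ≠ 0 := by
      intro hc0
      have : ∀ i, v i = 0 := by
        intro i
        have := k1 i
        rw [hc0, zero_mul, mul_one] at this
        exact this
      have h6 : φ ⬝ᵥ v = 0 := by simp [dotProduct, this]
      rw [h6] at hv
      exact zero_ne_one hv
    have hd : c * (φ ⬝ᵥ v') = 1 := by
      rw [← hv]
      have : v = fun i => c * v' i := by
        ext i
        have := k1 i
        rwa [mul_one] at this
      rw [this]
      simp only [dotProduct, Fin.sum_univ_three]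
      ring
    have k2 : ∀ j, φ' j = c * φ j := by
      intro j
      -- choose an index with v' i ≠ 0
      have h7 : ∃ i, v' i ≠ 0 := by
        by_contra h8
        push Not at h8
        have : φ' ⬝ᵥ v' = 0 := by simp [dotProduct, h8]
        rw [this] at hv'
        exact zero_ne_one hv'
      obtain ⟨i, hi⟩ := h7
      have h9 := h3 i j
      have h10 := k1 i
      rw [mul_one] at h10
      rw [h10] at h9
      have : v' i * φ' j = v' i * (c * φ j) := by
        calc v' i * φ' j = (c * (φ ⬝ᵥ v')) * (v' i * φ' j) := by rw [hd, one_mul]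
          _ = (φ ⬝ᵥ v') * (c * v' i * φ' j) := by ring
          _ = c * (v' i * φ j) := h9
          _ = v' i * (c * φ j) := by ring
      exact mul_left_cancel₀ hi this
    apply hne
    refine hx.is.ext (Is.self y |> fun _ => ?_)
    refine ⟨hy.1, hy.2.2.trans ?_⟩
    congr 1
    congr 1
    ext i j
    rw [Matrix.vecMulVec_apply, Matrix.vecMulVec_apply, k2 j]
    have := k1 i
    rw [mul_one] at this
    rw [this]
    ring

theorem hco_thm : HCOStmt := by
  intro F _ h2 x y v φ B hx hy hB
  have hv : φ ⬝ᵥ v = 1 := hx.2.1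
  have hT : ((2 : F) • Matrix.vecMulVec v φ - 1 : M3 F).transpose
      = (2 : F) • Matrix.vecMulVec φ v - 1 := by
    rw [Matrix.transpose_sub, Matrix.transpose_smul, Matrix.transpose_one]
    congr 2
    ext i j
    simp [Matrix.vecMulVec_apply, mul_comm]
  have hsym : ∀ i j, B i j = B j i := fun i j => congrFun (congrFun hB j) i
  refine ⟨fun hc => ?_, fun c hBv => ?_⟩
  · have h1 := (comm_inner_outer_iff hx.is hy).1 hc
    rw [hT] at h1
    -- entries
    have h3 : ∀ i j, 2 * (v ⬝ᵥ (B *ᵥ v)) * (φ i * φ j)
        = φ i * (B *ᵥ v) j + (B *ᵥ v) i * φ j := by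
      intro i j
      have h4 := congrFun (congrFun h1 i) j
      have e1 : (((2 : F) • Matrix.vecMulVec φ v - 1) * B * ((2 : F) • Matrix.vecMulVec v φ - 1)
          : M3 F) = (4 : F) • (Matrix.vecMulVec φ v * B * Matrix.vecMulVec v φ)
            - (2 : F) • (Matrix.vecMulVec φ v * B) - (2 : F) • (B * Matrix.vecMulVec v φ) + B := by
        rw [sub_mul, sub_mul, mul_sub, mul_sub]
        simp only [Matrix.smul_mul, Matrix.mul_smul, mul_one, one_mul, smul_smul]
        norm_num
        abel
      rw [e1] at h4
      have e2 : (Matrix.vecMulVec φ v * B * Matrix.vecMulVec v φ : M3 F) i j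
          = (v ⬝ᵥ (B *ᵥ v)) * (φ i * φ j) := by
        simp only [Matrix.mul_apply, Matrix.vecMulVec_apply, Matrix.mulVec, dotProduct,
          Fin.sum_univ_three]
        ring
      have e3 : (Matrix.vecMulVec φ v * B : M3 F) i j = φ i * (B *ᵥ v) j := by
        simp only [Matrix.mul_apply, Matrix.vecMulVec_apply, Matrix.mulVec, dotProduct,
          Fin.sum_univ_three]
        rw [hsym 0 j, hsym 1 j, hsym 2 j]
        ring
      have e4 : (B * Matrix.vecMulVec v φ : M3 F) i j = (B *ᵥ v) i * φ j := by
        simp only [Matrix.mul_apply, Matrix.vecMulVec_apply, Matrix.mulVec, dotProduct,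
          Fin.sum_univ_three]
        ring
      simp only [Matrix.add_apply, Matrix.sub_apply, Matrix.smul_apply, smul_eq_mul] at h4
      rw [e2, e3, e4] at h4
      have h5 : (2 : F) * (2 * (v ⬝ᵥ (B *ᵥ v)) * (φ i * φ j))
          = 2 * (φ i * (B *ᵥ v) j + (B *ᵥ v) i * φ j) := by
        linear_combination h4
      exact mul_left_cancel₀ h2 h5
    -- apply to v
    have h6 : ∀ i, (v ⬝ᵥ (B *ᵥ v)) * φ i = (B *ᵥ v) i := by
      intro i
      have hs := h3 i
      have e : (φ ⬝ᵥ v) = 1 := hv
      have e5 : 2 * (v ⬝ᵥ (B *ᵥ v)) * φ i * (φ ⬝ᵥ v)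
          = φ i * (v ⬝ᵥ (B *ᵥ v)) + (B *ᵥ v) i * (φ ⬝ᵥ v) := by
        have := hs
        generalize (B *ᵥ v) = u at this ⊢
        simp only [dotProduct, Fin.sum_univ_three] at this ⊢
        linear_combination v 0 * this 0 + v 1 * this 1 + v 2 * this 2
      rw [e] at e5
      linear_combination e5
    have h7 : v ⬝ᵥ (B *ᵥ v) ≠ 0 := by
      intro h8
      have h9 : B *ᵥ v = 0 := by
        ext i
        rw [← h6 i, h8, zero_mul]
        rfl
      have h10 : adjugate B *ᵥ (B *ᵥ v) = v := by
        rw [Matrix.mulVec_mulVec, adj_mul_self hy.det, Matrix.one_mulVec]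
      rw [h9, Matrix.mulVec_zero] at h10
      rw [← h10] at hv
      simp at hv
    refine ⟨h7, ?_⟩
    ext i
    rw [Pi.smul_apply, smul_eq_mul, ← h6 i, ← mul_assoc, inv_mul_cancel₀ h7, one_mul]
  · rw [comm_inner_outer_iff hx.is hy, hT]
    have h6 : ∀ i, (B *ᵥ v) i = c * φ i := fun i => by rw [hBv]; rfl
    have h7 : v ⬝ᵥ (B *ᵥ v) = c := by
      rw [hBv]
      have : v ⬝ᵥ (c • φ) = c * (φ ⬝ᵥ v) := by
        simp only [dotProduct, Pi.smul_apply, smul_eq_mul, Fin.sum_univ_three]
        ring
      rw [this, hv, mul_one]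
    ext i j
    have e1 : (((2 : F) • Matrix.vecMulVec φ v - 1) * B * ((2 : F) • Matrix.vecMulVec v φ - 1)
        : M3 F) = (4 : F) • (Matrix.vecMulVec φ v * B * Matrix.vecMulVec v φ)
          - (2 : F) • (Matrix.vecMulVec φ v * B) - (2 : F) • (B * Matrix.vecMulVec v φ) + B := by
      rw [sub_mul, sub_mul, mul_sub, mul_sub]
      simp only [Matrix.smul_mul, Matrix.mul_smul, mul_one, one_mul, smul_smul]
      norm_num
      abel
    rw [e1]
    have e2 : (Matrix.vecMulVec φ v * B * Matrix.vecMulVec v φ : M3 F) i j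
        = (v ⬝ᵥ (B *ᵥ v)) * (φ i * φ j) := by
      simp only [Matrix.mul_apply, Matrix.vecMulVec_apply, Matrix.mulVec, dotProduct,
        Fin.sum_univ_three]
      ring
    have e3 : (Matrix.vecMulVec φ v * B : M3 F) i j = φ i * (B *ᵥ v) j := by
      simp only [Matrix.mul_apply, Matrix.vecMulVec_apply, Matrix.mulVec, dotProduct,
        Fin.sum_univ_three]
      rw [hsym 0 j, hsym 1 j, hsym 2 j]
      ring
    have e4 : (B * Matrix.vecMulVec v φ : M3 F) i j = (B *ᵥ v) i * φ j := by
      simp only [Matrix.mul_apply, Matrix.vecMulVec_apply, Matrix.mulVec, dotProduct,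
        Fin.sum_univ_three]
      ring
    simp only [Matrix.add_apply, Matrix.sub_apply, Matrix.smul_apply, smul_eq_mul]
    rw [e2, e3, e4, h6, h6, h7]
    ring

end hom

end Pool.SCG
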