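import Pool.Agent.H24.SCG.Base

/-! Assembly of the upper bound: `Str5` is impossible. -/

namespace Pool.SCG

open Matrix

theorem cj_s {F : Type*} [Field F] (P : SL3 F) (x : Cor F) : (cj P x).s = x.s := by
  simp [cj]

theorem u5_thm (hNORM : NORMStmt) (hREV : REVStmt) (hBCJ : BCJStmt) (hC1A : C1AStmt)
    (hC1B : C1BStmt) (hC2 : C2Stmt) (hC3A : C3AStmt) (hC3D : C3DStmt) (hC3P : C3PStmt)
    (hC3Q : C3QStmt) : U5Stmt := by
  intro F _ _ hF
  -- the mixed case of the normal form `N3`
  have mixed : ∀ (a b c d e : Cor F) (b1 b2 b3 : F), Str5 a b c d e → N3 a c e b1 b2 b3 →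
      b.s = false → d.s = true → False := by
    intro a b c d e b1 b2 b3 hS hN hb hd
    obtain ⟨P, ρ, σ, x, hρ, hσ, hx, ha, hb, hd, he, hc⟩ :=
      hC3P F hF a b c d e b1 b2 b3 hS hN hb hd
    exact hC3Q F hF _ _ _ _ _ ρ σ x (hBCJ F P a b c d e hS) hρ hσ hx ha hb hd he hc
  intro a b c d e hS
  obtain ⟨P, b1, b2, b3, h⟩ := hNORM F hF.1 a b c d e hS
  have hS' := hBCJ F P a b c d e hS
  rcases h with h | h | h | h
  · by_cases hb : (cj P b).s = false
    · by_cases hd : (cj P d).s = false
      · exact hC1A F hF _ _ _ _ _ b1 b2 b3 hS' h hb hd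
      · exact hC1B F hF _ _ _ _ _ b1 b2 b3 hS' h (Or.inr (by simpa using hd))
    · exact hC1B F hF _ _ _ _ _ b1 b2 b3 hS' h (Or.inl (by simpa using hb))
  · exact hC2 F hF _ _ _ _ _ b1 b2 b3 hS' h
  · by_cases hb : (cj P b).s = false
    · by_cases hd : (cj P d).s = false
      · exact hC3A F hF _ _ _ _ _ b1 b2 b3 hS' h hb hd
      · exact mixed _ _ _ _ _ b1 b2 b3 hS' h hb (by simpa using hd)
    · by_cases hd : (cj P d).s = false
      · have hR := hREV F _ _ _ _ _ hS'
        obtain ⟨P', c1, c2, c3, h'⟩ := hNORM F hF.1 _ _ _ _ _ hR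
        have hR' := hBCJ F P' _ _ _ _ _ hR
        have hea : (cj P a).s = true := h.ha.1
        have hee : (cj P e).s = true := h.he.1
        rcases h' with h' | h' | h' | h'
        · have := h'.ha.1
          rw [cj_s, hee] at this
          exact absurd this (by decide)
        · have := h'.he.1
          rw [cj_s, hea] at this
          exact absurd this (by decide)
        · refine mixed _ _ _ _ _ c1 c2 c3 hR' h' ?_ ?_
          · rw [cj_s]; exact hd
          · rw [cj_s]; simpa using hb
        · have := h'.he.1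
          rw [cj_s, hee] at this
          exact absurd this (by decide)
      · exact hC3D F hF _ _ _ _ _ b1 b2 b3 hS' h (by simpa using hb) (by simpa using hd)
  · exact hC2 F hF _ _ _ _ _ b1 b2 b3 (hREV F _ _ _ _ _ hS') h

end Pool.SCG
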