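import Pool.Agent.H24.SCG.C2
import Pool.Agent.H24.SCG.U5
import Pool.Agent.H24.SCG.Fin
import Pool.Agent.H24.SCG.INV
import Pool.Agent.H24.SCG.BCJ
import Pool.Agent.H40.SCG.ZAX
import Pool.Agent.H40.SCG.NQ
import Pool.Agent.H40.SCG.C3D
import Pool.Agent.H95.SCG.TQD
import Pool.Agent.H95.SCG.TQT
import Pool.Agent.H26.SCG.LP
import Pool.Agent.H26.SCG.NC
import Pool.Agent.H26.SCG.IRR
import Pool.Agent.H64.SCG.BCJ
import Pool.Agent.H64.SCG.C2D
import Pool.Agent.H64.SCG.IOT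
import Pool.Agent.H64.SCG.EXR
import Pool.Agent.H64.SCG.EXA
import Pool.Agent.H64.SCG.EXB
import Pool.Agent.H22.SCG.SD
import Pool.Agent.H22.SCG.C1B
import Pool.Agent.H12.SCG.NORM
import Pool.Agent.H12.SCG.UPP
import Pool.Agent.H29.SCG.C1A
import Pool.Agent.H75.SCG.C2H
import Pool.Agent.H75.SCG.C3A
import Pool.Agent.H75.SCG.EXC
import Pool.Agent.H42.SCG.C2A
import Pool.Agent.H42.SCG.C2E
import Pool.Agent.H88.SCG.C2B
import Pool.Agent.H88.SCG.C2X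
import Pool.Agent.H99.SCG.C2W
import Pool.Agent.H99.SCG.C2C
import Pool.Agent.H84.SCG.C2F
import Pool.Agent.H84.SCG.PHI
import Pool.Agent.H73.SCG.C2G
import Pool.Agent.H73.SCG.MON
import Pool.Agent.H73.SCG.EX
import Pool.Agent.H13.SCG.C2S
import Pool.Agent.H13.SCG.AUI
import Pool.Agent.H17.SCG.C3Q
import Pool.Agent.H82.SCG.BV
import Pool.Agent.H82.SCG.EXG
import Pool.Agent.H62.SCG.AUN
import Pool.Agent.H62.SCG.AUF
import Pool.Agent.H52.SCG.FAO
import Pool.Agent.H52.SCG.GOO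
import Pool.Agent.H43.SCG.ST4
import Pool.Agent.H1.SCG.ZODD
import Pool.Agent.H17.SCG.C3P
import Pool.Agent.H58.SCG.ODC
import Pool.Agent.H33.SCG.ZPP

/-! Assembly of the project SCG. -/

namespace Pool.SCG

open Pool.Agent

theorem main : FINStmt := by
  have zpp : ZPPStmt := H33.SCG.zpp_thm
  have odc : ODCStmt := H58.SCG.odc_thm H40.SCG.zax_thm H1.SCG.zodd_thm
  have c3p : C3PStmt := H17.SCG.P.c3p_thm inv_thm hco_thm
  have nq : NQStmt := H40.SCG.nq_thm odc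
  have tqd : TQDStmt := H95.SCG.tqd_thm nq
  have tqt : TQTStmt := H95.SCG.tqt_thm nq
  have lp : LPStmt := H26.SCG.lp_thm zpp H40.SCG.zax_thm
  have sd : SDStmt := H22.SCG.sd_thm inv_thm hcm_thm
  have norm : NORMStmt := H12.SCG.norm_thm sd
  have c1a : C1AStmt := H29.SCG.c1a_thm inv_thm hcm_thm tqt
  have c1b : C1BStmt := H22.SCG.c1b_thm inv_thm hco_thm
  have c2h : C2HStmt := H75.SCG.c2h_thm inv_thm hcm_thm hco_thm
  have c2a : C2AStmt := H42.SCG.c2a_thm inv_thm hco_thm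
  have c2b : C2BStmt := H88.SCG.c2b_thm inv_thm hco_thm
  have c2e : C2EStmt := H42.SCG.c2e_thm tqt
  have c2d : C2DStmt := H64.SCG.c2d_thm tqd
  have c2x : C2XStmt := H88.SCG.c2x_thm tqd
  have c2 : C2Stmt := c2_thm H64.SCG.bcj_thm c2h c2a c2b c2e c2d H99.SCG.c2w_thm H84.SCG.c2f_thm
    H73.SCG.c2g_thm H99.SCG.c2c_thm c2x H13.SCG.c2s_thm H73.SCG.mona_thm H73.SCG.monb_thm
  have c3a : C3AStmt := H75.SCG.c3a_thm inv_thm hcm_thm hco_thm
  have c3d : C3DStmt := H40.SCG.c3d_thm inv_thm hco_thm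
  have c3q : C3QStmt := H17.SCG.c3q_thm lp H84.SCG.phi_thm
  have u5 : U5Stmt := u5_thm norm rev_thm H64.SCG.bcj_thm c1a c1b c2 c3a c3d c3p c3q
  have nc : NCStmt := H26.SCG.nc_thm inv_thm
  have irr : IRRStmt := H26.SCG.irr_thm nc
  have bv : BVStmt := H82.SCG.bv_thm inv_thm hcm_thm
  have iot : IOTStmt := H64.SCG.iot_thm
  have goo : GOOStmt := H52.SCG.goo_thm
  have aui : AUIStmt := H13.SCG.aui_thm H62.SCG.AUN_thm H62.SCG.AUF_thm H52.SCG.fao_thm goo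
  have upp : UPPStmt := H12.SCG.upp_thm u5 irr bv aui iot goo
  have ex : EXStmt := H73.SCG.ex_thm H43.SCG.st4_thm H64.SCG.exr_thm H64.SCG.exa_thm
    H64.SCG.exb_thm H75.SCG.exc_thm H82.SCG.exg_thm iot goo
  exact fin_thm upp ex goo iot

end Pool.SCG
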