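import Pool.Agent.H24.SCG.Defs

/-!
Statements of the modules of the project SCG (string C-groups with socle `PSL(3,q)`).
-/

namespace Pool.SCG

open Matrix

/-- characteristic different from two, no primitive cube root of unity -/
def Good (F : Type*) [Field F] : Prop := (2 : F) ≠ 0 ∧ ∀ x : F, x ^ 3 = 1 → x = 1

/-! ### Part G: finite groups acting on a projective line -/

/-- `u` fixes exactly the point `x` -/
def Par {K Ω : Type*} [Group K] [MulAction K Ω] (u : K) (x : Ω) : Prop :=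
  ∀ y : Ω, u • y = y ↔ y = x

/-- axioms for a finite subgroup of `PGL(2,L)` (`L` algebraically closed of characteristic not
two) acting on the projective line -/
structure Zas (K Ω : Type*) [Group K] [MulAction K Ω] : Prop where
  fix1 : ∀ g : K, ∃ x : Ω, g • x = x
  fix2 : ∀ g : K, g ≠ 1 → ∀ x y z : Ω, g • x = x → g • y = y → g • z = z →
    x = y ∨ y = z ∨ x = z
  uni_mul : ∀ (x : Ω) (g h : K), Par g x → Par h x → g * h = 1 ∨ Par (g * h) x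
  uni_abel : ∀ (x : Ω) (g h : K), Par g x → Par h x → g * h = h * g
  uni_comm : ∀ (x : Ω) (u g : K), Par u x → g • x = x → g * u = u * g → g = 1 ∨ Par g x
  invol : ∀ (x : Ω) (g h : K), g ≠ 1 → h ≠ 1 → g * g = 1 → h * h = 1 → g • x = x → h • x = x →
    g = h ∨ Par (g * h) x
  odd_uni : ∀ (x : Ω) (u : K), u ≠ 1 → Par u x → Odd (orderOf u)

/-- odd order groups have a common fixed point -/
def ZODDStmt : Prop := ∀ (K Ω : Type) [Group K] [Finite K] [MulAction K Ω], Zas K Ω →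
  Odd (Nat.card K) → ∃ x : Ω, ∀ g : K, g • x = x

/-- the abstract form of Lemma P -/
def ZPPStmt : Prop := ∀ (K Ω : Type) [Group K] [Finite K] [MulAction K Ω], Zas K Ω →
  ∀ (N : Subgroup K), (∀ x y : K, x ∉ N → y ∉ N → x * y ∈ N) →
  ∀ (y y' : Ω) (x1 t g0 : K), y ≠ y' → x1 ∉ N → x1 * x1 = 1 → x1 • y = y' →
    t • y = y → t • y' = y' → Odd (orderOf t) → 5 ≤ orderOf t →
    g0 • y ≠ y → g0 • y ≠ y' → (∀ g : K, g • y = y → g * g = 1 → g = 1) → False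

/-- the projective line over the algebraic closure -/
abbrev Om (F : Type*) [Field F] := OnePoint (AlgebraicClosure F)

open Classical in
/-- the action of `GL(2,F)` on the projective line over the algebraic closure of `F` -/
noncomputable def act (F : Type*) [Field F] : GL (Fin 2) F →* Equiv.Perm (Om F) :=
  (MulAction.toPermHom (GL (Fin 2) (AlgebraicClosure F)) (OnePoint (AlgebraicClosure F))).comp
    (Matrix.GeneralLinearGroup.map (algebraMap F (AlgebraicClosure F)))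

/-- subgroups of `PGL(2,F)` satisfy the axioms -/
def ZAXStmt : Prop := ∀ (F : Type) [Field F] [Finite F], (2 : F) ≠ 0 →
  ∀ X : Subgroup (GL (Fin 2) F), Zas (X.map (act F)) (Om F)

/-- a nonzero vector over the algebraic closure is an eigenvector of the matrix `A` -/
def EigB {F : Type*} [Field F] (A : Matrix (Fin 2) (Fin 2) F)
    (v : Fin 2 → AlgebraicClosure F) : Prop :=
  ∃ c : AlgebraicClosure F, (A.map (algebraMap F (AlgebraicClosure F))) *ᵥ v = c • v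

/-- subgroups of `SL(2,F)` without `-1` have a common eigenvector -/
def ODCStmt : Prop := ∀ (F : Type) [Field F] [Finite F], (2 : F) ≠ 0 →
  ∀ K : Subgroup (Matrix.SpecialLinearGroup (Fin 2) F), -1 ∉ K →
    ∃ v : Fin 2 → AlgebraicClosure F, v ≠ 0 ∧ ∀ k ∈ K, EigB (k : Matrix (Fin 2) (Fin 2) F) v

/-- the normaliser form: `A`, `B` normalise `K`, their squares are not scalar; then `K` is
trivial or `A`, `B` have a common eigenvector -/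
def NQStmt : Prop := ∀ (F : Type) [Field F] [Finite F], (2 : F) ≠ 0 →
  ∀ (K : Subgroup (Matrix.SpecialLinearGroup (Fin 2) F)) (A B : Matrix (Fin 2) (Fin 2) F),
    -1 ∉ K → K ≠ ⊥ → A.det ≠ 0 → B.det ≠ 0 →
    (∀ k ∈ K, ∃ k' ∈ K, A * (k : Matrix (Fin 2) (Fin 2) F) = (k' : Matrix (Fin 2) (Fin 2) F) * A) →
    (∀ k ∈ K, ∃ k' ∈ K, B * (k : Matrix (Fin 2) (Fin 2) F) = (k' : Matrix (Fin 2) (Fin 2) F) * B) →
    (∀ c : F, A * A ≠ c • (1 : Matrix (Fin 2) (Fin 2) F)) →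
    (∀ c : F, B * B ≠ c • (1 : Matrix (Fin 2) (Fin 2) F)) →
    ∃ v : Fin 2 → AlgebraicClosure F, v ≠ 0 ∧ EigB A v ∧ EigB B v

/-- the concrete form of Lemma P -/
def LPStmt : Prop := ∀ (F : Type) [Field F] [Finite F], (2 : F) ≠ 0 →
  ∀ (X N : Subgroup (GL (Fin 2) F)), N ≤ X → (∀ x ∈ X, ∀ y ∈ X, x ∉ N → y ∉ N → x * y ∈ N) →
  (∀ (g : GL (Fin 2) F) (c : F), (g : Matrix (Fin 2) (Fin 2) F) = !![c, 0; 0, c] → g ∈ N) →
  ∀ (x1 t g0 : GL (Fin 2) F) (p r τ : F), x1 ∈ X → x1 ∉ N → t ∈ X → g0 ∈ X →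
    (x1 : Matrix (Fin 2) (Fin 2) F) = !![0, p; r, 0] →
    (t : Matrix (Fin 2) (Fin 2) F) = !![τ, 0; 0, 1] → Odd (orderOf τ) → 5 ≤ orderOf τ →
    (g0 : Matrix (Fin 2) (Fin 2) F) 0 0 ≠ 0 → (g0 : Matrix (Fin 2) (Fin 2) F) 1 0 ≠ 0 →
    ∃ g ∈ X, (g : Matrix (Fin 2) (Fin 2) F) = !![1, 0; 0, -1]

/-! ### Part B: basic notions -/

section basics

variable {F : Type*} [Field F]

/-- the element `x` of `Cor F` has sign `s` and matrix `A` -/
def Is (x : Cor F) (s : Bool) (A : Matrix (Fin 3) (Fin 3) F) : Prop :=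
  x.s = s ∧ (x.m : Matrix (Fin 3) (Fin 3) F) = A

/-- diagonal matrices -/
def dg (a b c : F) : Matrix (Fin 3) (Fin 3) F := !![a, 0, 0; 0, b, 0; 0, 0, c]

/-- the data of a string C-group of rank five, as far as they are used -/
structure Str5 (a b c d e : Cor F) : Prop where
  ia : a ≠ 1 ∧ a * a = 1
  ib : b ≠ 1 ∧ b * b = 1
  ic : c ≠ 1 ∧ c * c = 1
  id : d ≠ 1 ∧ d * d = 1
  ie : e ≠ 1 ∧ e * e = 1
  ac : a * c = c * a
  ad : a * d = d * a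
  ae : a * e = e * a
  bd : b * d = d * b
  be : b * e = e * b
  ce : c * e = e * c
  ab : a * b ≠ b * a
  bc : b * c ≠ c * b
  cd : c * d ≠ d * c
  de : d * e ≠ e * d
  v1 : e ∉ Subgroup.closure ({a, b, c, d} : Set (Cor F))
  v2 : a ∉ Subgroup.closure ({b, c, d, e} : Set (Cor F))
  v3 : ∀ x ∈ Subgroup.closure ({a, b} : Set (Cor F)),
    x ∈ Subgroup.closure ({c, d, e} : Set (Cor F)) → x = 1
  v4 : ∀ x ∈ Subgroup.closure ({d, e} : Set (Cor F)),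
    x ∈ Subgroup.closure ({a, b, c} : Set (Cor F)) → x = 1

/-- conjugation with `inn P` (change of basis) -/
def cj (P : SL3 F) (x : Cor F) : Cor F := (inn P)⁻¹ * x * inn P

/-- normal form of `(a, c, e)` in case 1 -/
structure N1 (a c e : Cor F) (b1 b2 b3 : F) : Prop where
  ha : Is a false (dg 1 (-1) (-1))
  hc : Is c true (dg b1 b2 b3)
  he : Is e false (dg (-1) (-1) 1)

/-- normal form of `(a, c, e)` in case 2 -/
structure N2 (a c e : Cor F) (b1 b2 b3 : F) : Prop where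
  ha : Is a true (dg b1 b2 b3)
  hc : Is c false (dg 1 (-1) (-1)) ∨ Is c true (dg b1 (-b2) (-b3))
  he : Is e false (dg (-1) (-1) 1)

/-- normal form of `(a, c, e)` in case 3 -/
structure N3 (a c e : Cor F) (b1 b2 b3 : F) : Prop where
  ha : Is a true (dg b1 b2 b3)
  hc : Is c false (dg 1 (-1) (-1)) ∨ Is c true (dg b1 (-b2) (-b3))
  he : Is e true (dg (-b1) (-b2) b3)

/-- the homology with centre `w`, orthogonal for the form `diag(b)` -/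
noncomputable def hB (b1 b2 b3 w1 w2 w3 : F) : Matrix (Fin 3) (Fin 3) F :=
  (2 * (b1 * w1 ^ 2 + b2 * w2 ^ 2 + b3 * w3 ^ 2)⁻¹) •
    !![w1 * (b1 * w1), w1 * (b2 * w2), w1 * (b3 * w3);
       w2 * (b1 * w1), w2 * (b2 * w2), w2 * (b3 * w3);
       w3 * (b1 * w1), w3 * (b2 * w2), w3 * (b3 * w3)] - 1

/-- the form of an elation type product -/
def BK (b1 b2 b3 w1 w2 κ : F) : Matrix (Fin 3) (Fin 3) F :=
  !![b1 + κ * w2 ^ 2, -(κ * w1 * w2), 0; -(κ * w1 * w2), b2 + κ * w1 ^ 2, 0; 0, 0, b3]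

/-- the form `B0 * M`, where `M` has eigenvalue `α` on the vector orthogonal to `(w1,w2,0)` in
the plane, `β` on `(w1,w2,0)`, and `γ` on the third basis vector -/
noncomputable def BM (b1 b2 b3 w1 w2 α β γ : F) : Matrix (Fin 3) (Fin 3) F :=
  !![α * b1 + (β - α) * (b1 * w1) ^ 2 * (b1 * w1 ^ 2 + b2 * w2 ^ 2)⁻¹,
      (β - α) * (b1 * w1) * (b2 * w2) * (b1 * w1 ^ 2 + b2 * w2 ^ 2)⁻¹, 0;
     (β - α) * (b1 * w1) * (b2 * w2) * (b1 * w1 ^ 2 + b2 * w2 ^ 2)⁻¹,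
      α * b2 + (β - α) * (b2 * w2) ^ 2 * (b1 * w1 ^ 2 + b2 * w2 ^ 2)⁻¹, 0;
     0, 0, γ * b3]

/-- swap of the first two basis vectors, `-1` on the third -/
def Sm (F : Type*) [Field F] : Matrix (Fin 3) (Fin 3) F := !![0, 1, 0; 1, 0, 0; 0, 0, -1]

/-- `-1` on the first basis vector, swap of the last two -/
def Jm (F : Type*) [Field F] : Matrix (Fin 3) (Fin 3) F := !![-1, 0, 0; 0, 0, 1; 0, 1, 0]

/-- the hyperbolic form used in case 3 -/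
def Q0 (F : Type*) [Field F] : Matrix (Fin 3) (Fin 3) F := !![0, 0, 1; 0, -1, 0; 1, 0, 0]

/-- the homology with centre `(1,x,-ρ)`, orthogonal for `Q0` -/
noncomputable def hQ (ρ x : F) : Matrix (Fin 3) (Fin 3) F :=
  (2 * ρ + x ^ 2)⁻¹ • !![-x ^ 2, 2 * x, -2;
    2 * ρ * x, x ^ 2 - 2 * ρ, -(2 * x);
    -(2 * ρ ^ 2), -(2 * ρ * x), -x ^ 2]

/-- the centre of `x` and its axis: `x = 2 v φ - 1` -/
def IsHom (x : Cor F) (v φ : Fin 3 → F) : Prop :=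
  x.s = false ∧ φ ⬝ᵥ v = 1 ∧
    (x.m : Matrix (Fin 3) (Fin 3) F) = (2 : F) • Matrix.vecMulVec v φ - 1

end basics

/-! #### block lemmas -/

/-- two diagonalisable blocks without common eigenline: `-1` on the plane is in the group -/
def TQDStmt : Prop := ∀ (F : Type) [Field F] [Finite F], (2 : F) ≠ 0 →
  ∀ (X : Subgroup (Cor F)) (x y e : Cor F)
    (a11 a12 a21 a22 a33 b11 b12 b21 b22 b33 α β α' β' : F) (v w v' w' : Fin 2 → F),
    x ∈ X → y ∈ X → Is x false !![a11, a12, 0; a21, a22, 0; 0, 0, a33] →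
    Is y false !![b11, b12, 0; b21, b22, 0; 0, 0, b33] →
    !![a11, a12; a21, a22] *ᵥ v = α • v → !![a11, a12; a21, a22] *ᵥ w = β • w →
    !![b11, b12; b21, b22] *ᵥ v' = α' • v' → !![b11, b12; b21, b22] *ᵥ w' = β' • w' →
    α ^ 2 ≠ β ^ 2 → α' ^ 2 ≠ β' ^ 2 →
    v 0 * v' 1 - v 1 * v' 0 ≠ 0 → v 0 * w' 1 - v 1 * w' 0 ≠ 0 →
    w 0 * v' 1 - w 1 * v' 0 ≠ 0 → w 0 * w' 1 - w 1 * w' 0 ≠ 0 →
    Is e false (dg (-1) (-1) 1) → e ∈ X

/-- two transvections with different directions -/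
def TQTStmt : Prop := ∀ (F : Type) [Field F] [Finite F], (2 : F) ≠ 0 →
  ∀ (X : Subgroup (Cor F)) (x y e : Cor F) (k v1 v2 k' v1' v2' : F),
    x ∈ X → y ∈ X →
    Is x false !![1 - k * v1 * v2, k * v1 ^ 2, 0; -(k * v2 ^ 2), 1 + k * v1 * v2, 0; 0, 0, 1] →
    Is y false !![1 - k' * v1' * v2', k' * v1' ^ 2, 0;
      -(k' * v2' ^ 2), 1 + k' * v1' * v2', 0; 0, 0, 1] →
    k ≠ 0 → k' ≠ 0 → v1 * v2' - v2 * v1' ≠ 0 →
    Is e false (dg (-1) (-1) 1) → e ∈ X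

/-! #### basic modules -/

/-- base change -/
def BCJStmt : Prop := ∀ (F : Type) [Field F] (P : SL3 F) (a b c d e : Cor F),
  Str5 a b c d e → Str5 (cj P a) (cj P b) (cj P c) (cj P d) (cj P e)

/-- reversal -/
def REVStmt : Prop := ∀ (F : Type) [Field F] (a b c d e : Cor F),
  Str5 a b c d e → Str5 e d c b a

/-- involutions of `Cor F` -/
def INVStmt : Prop := ∀ (F : Type) [Field F], (2 : F) ≠ 0 → ∀ x : Cor F, x ≠ 1 → x * x = 1 →
  (∃ v φ : Fin 3 → F, IsHom x v φ) ∨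
  (x.s = true ∧ (x.m : Matrix (Fin 3) (Fin 3) F).transpose = (x.m : Matrix (Fin 3) (Fin 3) F))

/-- commuting homologies -/
def HCMStmt : Prop := ∀ (F : Type) [Field F], (2 : F) ≠ 0 →
  ∀ (x y : Cor F) (v φ v' φ' : Fin 3 → F), IsHom x v φ → IsHom y v' φ' → x * y = y * x →
    x ≠ y → φ ⬝ᵥ v' = 0 ∧ φ' ⬝ᵥ v = 0

/-- a homology commutes with a polarity iff it preserves the form -/
def HCOStmt : Prop := ∀ (F : Type) [Field F], (2 : F) ≠ 0 →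
  ∀ (x y : Cor F) (v φ : Fin 3 → F) (B : Matrix (Fin 3) (Fin 3) F), IsHom x v φ →
    Is y true B → B.transpose = B →
    ((x * y = y * x → v ⬝ᵥ (B *ᵥ v) ≠ 0 ∧ φ = (v ⬝ᵥ (B *ᵥ v))⁻¹ • (B *ᵥ v)) ∧
     (∀ c : F, B *ᵥ v = c • φ → x * y = y * x))

/-- two commuting different homologies can be diagonalised -/
def SDStmt : Prop := ∀ (F : Type) [Field F], (2 : F) ≠ 0 →
  ∀ x y : Cor F, x.s = false → y.s = false → x ≠ 1 → y ≠ 1 → x * x = 1 → y * y = 1 →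
    x * y = y * x → x ≠ y →
    ∃ P : SL3 F, Is (cj P x) false (dg 1 (-1) (-1)) ∧ Is (cj P y) false (dg (-1) (-1) 1)

/-- normal forms -/
def NORMStmt : Prop := ∀ (F : Type) [Field F], (2 : F) ≠ 0 →
  ∀ a b c d e : Cor F, Str5 a b c d e → ∃ (P : SL3 F) (b1 b2 b3 : F),
    N1 (cj P a) (cj P c) (cj P e) b1 b2 b3 ∨ N2 (cj P a) (cj P c) (cj P e) b1 b2 b3 ∨
    N3 (cj P a) (cj P c) (cj P e) b1 b2 b3 ∨ N2 (cj P e) (cj P c) (cj P a) b1 b2 b3

/-! #### case 1 -/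

def C1AStmt : Prop := ∀ (F : Type) [Field F] [Finite F], Good F →
  ∀ (a b c d e : Cor F) (b1 b2 b3 : F), Str5 a b c d e → N1 a c e b1 b2 b3 →
    b.s = false → d.s = false → False

def C1BStmt : Prop := ∀ (F : Type) [Field F] [Finite F], Good F →
  ∀ (a b c d e : Cor F) (b1 b2 b3 : F), Str5 a b c d e → N1 a c e b1 b2 b3 →
    (b.s = true ∨ d.s = true) → False

/-! #### case 2 -/

def C2HStmt : Prop := ∀ (F : Type) [Field F] [Finite F], Good F →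
  ∀ (a b c d e : Cor F) (b1 b2 b3 : F), Str5 a b c d e → N2 a c e b1 b2 b3 →
    b.s = false → False

/-- parametrisation for `d.s = false` -/
def C2AStmt : Prop := ∀ (F : Type) [Field F] [Finite F], Good F →
  ∀ (a b c d e : Cor F) (b1 b2 b3 : F), Str5 a b c d e → N2 a c e b1 b2 b3 →
    b.s = true → d.s = false →
    ∃ w1 w2 w3 : F, w3 ≠ 0 ∧ b1 * w1 ^ 2 + b2 * w2 ^ 2 + b3 * w3 ^ 2 ≠ 0 ∧
      Is d false (hB b1 b2 b3 w1 w2 w3) ∧
      ((∃ κ : F, κ ≠ 0 ∧ (w1 ≠ 0 ∨ w2 ≠ 0) ∧ b1 * w1 ^ 2 + b2 * w2 ^ 2 = 0 ∧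
          Is b true (BK b1 b2 b3 w1 w2 κ)) ∨
       (∃ k : F, k ^ 2 ≠ 1 ∧ k ≠ 0 ∧ b1 * w1 ^ 2 + b2 * w2 ^ 2 ≠ 0 ∧
          Is b true (BM b1 b2 b3 w1 w2 (k⁻¹ ^ 2) k k)))

/-- parametrisation for `d.s = true` -/
def C2BStmt : Prop := ∀ (F : Type) [Field F] [Finite F], Good F →
  ∀ (a b c d e : Cor F) (b1 b2 b3 : F), Str5 a b c d e → N2 a c e b1 b2 b3 →
    b.s = true → d.s = true →
    ∃ w1 w2 w3 : F, w3 ≠ 0 ∧ b1 * w1 ^ 2 + b2 * w2 ^ 2 + b3 * w3 ^ 2 ≠ 0 ∧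
      Is d true (dg b1 b2 b3 * hB b1 b2 b3 w1 w2 w3) ∧
      ((∃ κ : F, κ ≠ 0 ∧ (w1 ≠ 0 ∨ w2 ≠ 0) ∧ b1 * w1 ^ 2 + b2 * w2 ^ 2 = 0 ∧
          Is b true (BK b1 b2 b3 w1 w2 κ)) ∨
       (∃ k : F, k ^ 2 ≠ 1 ∧ k ≠ 0 ∧ b1 * w1 ^ 2 + b2 * w2 ^ 2 = b3 * w3 ^ 2 ∧
          Is b true (BM b1 b2 b3 w1 w2 1 k⁻¹ k)))

/-- elations -/
def C2EStmt : Prop := ∀ (F : Type) [Field F] [Finite F], Good F →
  ∀ (X : Subgroup (Cor F)) (a b h e : Cor F) (b1 b2 b3 w1 w2 κ : F),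
    a ∈ X → b ∈ X → h ∈ X → Is a true (dg b1 b2 b3) → Is b true (BK b1 b2 b3 w1 w2 κ) →
    Is h false (dg 1 (-1) (-1)) → Is e false (dg (-1) (-1) 1) →
    κ ≠ 0 → (w1 ≠ 0 ∨ w2 ≠ 0) → b1 * w1 ^ 2 + b2 * w2 ^ 2 = 0 → e ∈ X

/-- disjoint eigenlines -/
def C2DStmt : Prop := ∀ (F : Type) [Field F] [Finite F], Good F →
  ∀ (X : Subgroup (Cor F)) (a b h e : Cor F) (b1 b2 b3 w1 w2 α β γ : F),
    a ∈ X → b ∈ X → h ∈ X → Is a true (dg b1 b2 b3) → Is b true (BM b1 b2 b3 w1 w2 α β γ) →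
    Is h false (dg 1 (-1) (-1)) → Is e false (dg (-1) (-1) 1) →
    b1 * w1 ^ 2 + b2 * w2 ^ 2 ≠ 0 → w1 ≠ 0 → w2 ≠ 0 → α ^ 2 ≠ β ^ 2 →
    b1 * w1 ^ 2 ≠ b2 * w2 ^ 2 → e ∈ X

/-- `w1 = 0` is impossible -/
def C2WStmt : Prop := ∀ (F : Type) [Field F] [Finite F], Good F →
  ∀ (a b c d e : Cor F) (b1 b2 b3 w1 w2 w3 : F), Str5 a b c d e → N2 a c e b1 b2 b3 →
    (Is d false (hB b1 b2 b3 w1 w2 w3) ∨ Is d true (dg b1 b2 b3 * hB b1 b2 b3 w1 w2 w3)) →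
    b1 * w1 ^ 2 + b2 * w2 ^ 2 + b3 * w3 ^ 2 ≠ 0 → w1 ≠ 0

/-- `w2 = 0` is impossible, `d.s = false` -/
def C2FStmt : Prop := ∀ (F : Type) [Field F] [Finite F], Good F →
  ∀ (a b c d e : Cor F) (b1 b2 b3 w1 w3 : F), Str5 a b c d e → N2 a c e b1 b2 b3 →
    Is d false (hB b1 b2 b3 w1 0 w3) → b1 * w1 ^ 2 + b3 * w3 ^ 2 ≠ 0 →
    c.s = true → False

/-- `w2 = 0` is impossible, `d.s = true` -/
def C2GStmt : Prop := ∀ (F : Type) [Field F] [Finite F], Good F →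
  ∀ (a b c d e : Cor F) (b1 b2 b3 w1 w3 : F), Str5 a b c d e → N2 a c e b1 b2 b3 →
    Is d true (dg b1 b2 b3 * hB b1 b2 b3 w1 0 w3) → b1 * w1 ^ 2 = b3 * w3 ^ 2 → w3 ≠ 0 →
    c.s = true → False

/-- `w2 = 0`: then `c.s = true` -/
def C2CStmt : Prop := ∀ (F : Type) [Field F] [Finite F], Good F →
  ∀ (a b c d e : Cor F) (b1 b2 b3 w1 α β γ : F), Str5 a b c d e → N2 a c e b1 b2 b3 →
    Is b true (BM b1 b2 b3 w1 0 α β γ) → b1 * w1 ^ 2 ≠ 0 → c.s = true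

/-- the case of swapped eigenlines, not monomial -/
def C2XStmt : Prop := ∀ (F : Type) [Field F] [Finite F], Good F →
  ∀ (X : Subgroup (Cor F)) (a b h d e : Cor F) (b1 b2 b3 w1 w2 w3 k : F),
    a ∈ X → b ∈ X → h ∈ X → d ∈ X → Is a true (dg b1 b2 b3) →
    Is b true (BM b1 b2 b3 w1 w2 (k⁻¹ ^ 2) k k) → Is h false (dg 1 (-1) (-1)) →
    Is d false (hB b1 b2 b3 w1 w2 w3) → Is e false (dg (-1) (-1) 1) →
    w1 ≠ 0 → w2 ≠ 0 → w3 ≠ 0 → k ≠ 0 → k ^ 2 ≠ 1 → b1 * w1 ^ 2 = b2 * w2 ^ 2 →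
    b1 * w1 ^ 2 + b2 * w2 ^ 2 ≠ b3 * w3 ^ 2 →
    b1 * w1 ^ 2 + b2 * w2 ^ 2 + b3 * w3 ^ 2 ≠ 0 → e ∈ X

/-- the monomial base change -/
def C2SStmt : Prop := ∀ (F : Type) [Field F] [Finite F], Good F →
  ∀ (b1 b2 b3 w1 w2 w3 : F), b1 * b2 * b3 = 1 →
    w1 ≠ 0 → w2 ≠ 0 → w3 ≠ 0 → b1 * w1 ^ 2 = b2 * w2 ^ 2 →
    b1 * w1 ^ 2 + b2 * w2 ^ 2 = b3 * w3 ^ 2 → ∃ P : SL3 F,
      (∀ x : Cor F, Is x true (dg b1 b2 b3) → Is (cj P x) true (dg 1 1 1)) ∧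
      (∀ (x : Cor F) (α β γ : F), Is x true (BM b1 b2 b3 w1 w2 α β γ) →
        Is (cj P x) true (dg α β γ)) ∧
      (∀ x : Cor F, Is x false (dg 1 (-1) (-1)) → Is (cj P x) false (Sm F)) ∧
      (∀ x : Cor F, Is x true (dg b1 (-b2) (-b3)) → Is (cj P x) true (Sm F)) ∧
      (∀ x : Cor F, Is x false (hB b1 b2 b3 w1 w2 w3) → Is (cj P x) false (Jm F)) ∧
      (∀ x : Cor F, Is x true (dg b1 b2 b3 * hB b1 b2 b3 w1 w2 w3) → Is (cj P x) true (Jm F)) ∧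
      (∀ x : Cor F, Is x false (dg (-1) (-1) 1) → Is (cj P x) false (dg (-1) (-1) 1))

/-- the monomial case, `d.s = false` -/
def MONAStmt : Prop := ∀ (F : Type) [Field F] [Finite F], Good F →
  ∀ (X : Subgroup (Cor F)) (a b c d : Cor F) (k : F), b ∈ X → c ∈ X → d ∈ X → k ≠ 0 →
    Is a true (dg 1 1 1) → Is b true (dg (k⁻¹ ^ 2) k k) →
    (Is c false (Sm F) ∨ Is c true (Sm F)) → Is d false (Jm F) → a ∈ X

/-- the monomial case, `d.s = true` -/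
def MONBStmt : Prop := ∀ (F : Type) [Field F] [Finite F], Good F →
  ∀ (X : Subgroup (Cor F)) (a b c d : Cor F) (k : F), b ∈ X → c ∈ X → d ∈ X → k ≠ 0 →
    Is a true (dg 1 1 1) → Is b true (dg 1 k⁻¹ k) →
    (Is c false (Sm F) ∨ Is c true (Sm F)) → Is d true (Jm F) → a ∈ X

/-- assembly of case 2 -/
def C2Stmt : Prop := ∀ (F : Type) [Field F] [Finite F], Good F →
  ∀ (a b c d e : Cor F) (b1 b2 b3 : F), Str5 a b c d e → N2 a c e b1 b2 b3 → False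

/-! #### case 3 -/

def C3AStmt : Prop := ∀ (F : Type) [Field F] [Finite F], Good F →
  ∀ (a b c d e : Cor F) (b1 b2 b3 : F), Str5 a b c d e → N3 a c e b1 b2 b3 →
    b.s = false → d.s = false → False

def C3DStmt : Prop := ∀ (F : Type) [Field F] [Finite F], Good F →
  ∀ (a b c d e : Cor F) (b1 b2 b3 : F), Str5 a b c d e → N3 a c e b1 b2 b3 →
    b.s = true → d.s = true → False

/-- parametrisation of the mixed case -/
def C3PStmt : Prop := ∀ (F : Type) [Field F] [Finite F], Good F →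
  ∀ (a b c d e : Cor F) (b1 b2 b3 : F), Str5 a b c d e → N3 a c e b1 b2 b3 →
    b.s = false → d.s = true → ∃ (P : SL3 F) (ρ σ x : F), ρ ≠ 0 ∧ σ ≠ 0 ∧ 2 * ρ + x ^ 2 ≠ 0 ∧
      Is (cj P a) true (Q0 F) ∧ Is (cj P b) false (dg 1 (-1) (-1)) ∧
      Is (cj P d) true (dg σ 1 σ⁻¹) ∧ Is (cj P e) true (dg ρ 1 ρ⁻¹) ∧
      (Is (cj P c) false (hQ ρ x) ∨ Is (cj P c) true ((hQ ρ x).transpose * Q0 F))

/-- the isomorphism of `PGL(2,F)` with the orthogonal group of `Q0` -/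
def PHIStmt : Prop := ∀ (F : Type) [Field F], (2 : F) ≠ 0 → ∃ Φ : GL (Fin 2) F →* SL3 F,
  (∀ (g : GL (Fin 2) F) (a b c d : F), (g : Matrix (Fin 2) (Fin 2) F) = !![a, b; c, d] →
    (Φ g : Matrix (Fin 3) (Fin 3) F) = (a * d - b * c)⁻¹ •
      !![a ^ 2, a * b, b ^ 2 * 2⁻¹; 2 * a * c, a * d + b * c, b * d;
        2 * c ^ 2, 2 * c * d, d ^ 2]) ∧
  (∀ (g : GL (Fin 2) F) (q : Cor F), Is q true (Q0 F) → q * inn (Φ g) = inn (Φ g) * q)

/-- the end of the mixed case -/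
def C3QStmt : Prop := ∀ (F : Type) [Field F] [Finite F], Good F →
  ∀ (a b c d e : Cor F) (ρ σ x : F), Str5 a b c d e → ρ ≠ 0 → σ ≠ 0 → 2 * ρ + x ^ 2 ≠ 0 →
    Is a true (Q0 F) → Is b false (dg 1 (-1) (-1)) → Is d true (dg σ 1 σ⁻¹) →
    Is e true (dg ρ 1 ρ⁻¹) →
    (Is c false (hQ ρ x) ∨ Is c true ((hQ ρ x).transpose * Q0 F)) → False

/-! #### the upper bound -/

def U5Stmt : Prop := ∀ (F : Type) [Field F] [Finite F], Good F →
  ∀ a b c d e : Cor F, ¬ Str5 a b c d e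

/-! ### Part A: automorphisms -/

/-- all conjugates of `x` commute with `y`: impossible for involutions -/
def NCStmt : Prop := ∀ (F : Type) [Field F] [Finite F], Good F →
  ∀ x y : Cor F, x ≠ 1 → y ≠ 1 → x * x = 1 → y * y = 1 →
    ∃ g : SL3 F, (inn g * x * (inn g)⁻¹) * y ≠ y * (inn g * x * (inn g)⁻¹)

/-- irreducibility -/
def IRRStmt : Prop := ∀ (F : Type) [Field F] [Finite F], Good F →
  ∀ (r : ℕ) (ρ : Fin r → Cor F), (∀ i, ρ i ≠ 1 ∧ ρ i * ρ i = 1) →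
    (∀ i j : Fin r, i.val + 2 ≤ j.val → ρ i * ρ j = ρ j * ρ i) →
    (∀ m : SL3 F, inn m ∈ Subgroup.closure (Set.range ρ)) →
    ∀ i j : Fin r, i.val + 1 = j.val → ρ i * ρ j ≠ ρ j * ρ i

/-- strings of homologies do not generate `SL(3,F)` (Brooksbank, Vicinsky) -/
def BVStmt : Prop := ∀ (F : Type) [Field F] [Finite F], Good F →
  ∀ (r : ℕ) (ρ : Fin r → Cor F), (∀ i, ρ i ≠ 1 ∧ ρ i * ρ i = 1) → (∀ i, (ρ i).s = false) →
    (∀ i j : Fin r, i.val + 2 ≤ j.val → ρ i * ρ j = ρ j * ρ i) →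
    (∀ i j : Fin r, i.val + 1 = j.val → ρ i * ρ j ≠ ρ j * ρ i) →
    ∃ m : SL3 F, inn m ∉ Subgroup.closure (Set.range ρ)

/-- `iota` is injective, its range is `GraphExt F` -/
def IOTStmt : Prop := ∀ (F : Type) [Field F], Good F →
  Function.Injective (iota F) ∧ (iota F).range = GraphExt F ∧
    (∀ m : SL3 F, iota F (inn m) = MulAut.conj m) ∧ Subgroup.center (SL3 F) = ⊥

/-- normal form of the automorphisms -/
def AUNStmt : Prop := ∀ (F : Type) [Field F] [Finite F], Good F → ∀ α ∈ AutG F,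
  ∃ (x : Cor F) (σ : F ≃+* F), α = iota F x * fieldAut σ

/-- `fieldAut σ` is in the range of `iota` only for `σ = 1` -/
def AUFStmt : Prop := ∀ (F : Type) [Field F], Good F → ∀ (x : Cor F) (σ : F ≃+* F),
  iota F x = fieldAut σ → σ = 1 ∧ x = 1

/-- a finite field with `q` not a square has no automorphism of order two -/
def FAOStmt : Prop := ∀ (F : Type) [Field F] [Fintype F], Fintype.card F % 6 = 5 →
  ∀ σ : F ≃+* F, σ * σ = 1 → σ = 1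

/-- the arithmetic condition -/
def GOOStmt : Prop := ∀ (F : Type) [Field F] [Fintype F], Fintype.card F % 6 = 5 →
  Good F ∧ (3 : F) ≠ 0 ∧ (∀ x : F, ∃ y : F, y ^ 3 = x)

/-- involutions of `AutG F` -/
def AUIStmt : Prop := ∀ (F : Type) [Field F] [Fintype F], Fintype.card F % 6 = 5 →
  ∀ α ∈ AutG F, α * α = 1 → α ∈ (iota F).range

/-- the upper bound for all groups between -/
def UPPStmt : Prop := ∀ (F : Type) [Field F] [Fintype F], Fintype.card F % 6 = 5 →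
  ∀ (G : Subgroup (MulAut (SL3 F))) (r : ℕ), Inn F ≤ G → G ≤ AutG F → HasStringC G r →
    G = GraphExt F ∧ r ≤ 4

/-! ### Part C: existence -/

/-- the criterion for rank four -/
def ST4Stmt : Prop := ∀ (G : Type) [Group G] (a b c d : G), a ≠ 1 → b ≠ 1 → c ≠ 1 → d ≠ 1 →
  a * a = 1 → b * b = 1 → c * c = 1 → d * d = 1 →
  a * c = c * a → a * d = d * a → b * d = d * b → a ≠ b → b ≠ c → c ≠ d →
  (∀ x ∈ Subgroup.closure ({a, b} : Set G), x ∈ Subgroup.closure ({b, c} : Set G) →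
    x ∈ Subgroup.closure ({b} : Set G)) →
  (∀ x ∈ Subgroup.closure ({b, c} : Set G), x ∈ Subgroup.closure ({c, d} : Set G) →
    x ∈ Subgroup.closure ({c} : Set G)) →
  (∀ x ∈ Subgroup.closure ({a, b, c} : Set G), x ∈ Subgroup.closure ({b, c, d} : Set G) →
    x ∈ Subgroup.closure ({b, c} : Set G)) →
  IsStringC 4 ![a, b, c, d]

/-- the four generators -/
structure Gens {F : Type*} [Field F] (τ : F) (a b c d : Cor F) : Prop where
  ha : Is a true !![0, -1, 0; -1, 0, 0; 0, 0, -1]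
  hb : Is b false !![0, 0, -1; 0, -1, 0; -1, 0, 0]
  hc : Is c false !![0, -τ⁻¹, 0; -τ, 0, 0; 0, 0, -1]
  hd : Is d false ((2 * (3 : F)⁻¹) • !![1, 1, 1; 1, 1, 1; 1, 1, 1] - 1)

/-- existence of the generators and relations -/
def EXRStmt : Prop := ∀ (F : Type) [Field F] (τ : F), (2 : F) ≠ 0 → (3 : F) ≠ 0 → τ ≠ 0 →
  ∃ a b c d : Cor F, Gens τ a b c d ∧ a ≠ 1 ∧ b ≠ 1 ∧ c ≠ 1 ∧ d ≠ 1 ∧
    a * a = 1 ∧ b * b = 1 ∧ c * c = 1 ∧ d * d = 1 ∧
    a * c = c * a ∧ a * d = d * a ∧ b * d = d * b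

/-- first intersection condition -/
def EXAStmt : Prop := ∀ (F : Type) [Field F] (τ : F), Good F → (3 : F) ≠ 0 → τ ≠ 0 →
  τ ^ 2 ≠ 1 →
  ∀ a b c d : Cor F, Gens τ a b c d → a ≠ b ∧ b ≠ c ∧ c ≠ d ∧
    (∀ x ∈ Subgroup.closure ({a, b} : Set (Cor F)), x ∈ Subgroup.closure ({b, c} : Set (Cor F)) →
      x ∈ Subgroup.closure ({b} : Set (Cor F)))

/-- second intersection condition -/
def EXBStmt : Prop := ∀ (F : Type) [Field F] (τ : F), Good F → (3 : F) ≠ 0 → τ ≠ 0 →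
  τ ^ 2 ≠ 1 → τ ≠ -2 → ∀ a b c d : Cor F, Gens τ a b c d →
    (∀ x ∈ Subgroup.closure ({b, c} : Set (Cor F)), x ∈ Subgroup.closure ({c, d} : Set (Cor F)) →
      x ∈ Subgroup.closure ({c} : Set (Cor F)))

/-- third intersection condition -/
def EXCStmt : Prop := ∀ (F : Type) [Field F] (τ : F), Good F → (3 : F) ≠ 0 → τ ≠ 0 →
  τ ^ 2 ≠ 1 → ∀ a b c d : Cor F, Gens τ a b c d →
    (∀ x ∈ Subgroup.closure ({a, b, c} : Set (Cor F)),
      x ∈ Subgroup.closure ({b, c, d} : Set (Cor F)) →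
      x ∈ Subgroup.closure ({b, c} : Set (Cor F)))

/-- generation -/
def EXGStmt : Prop := ∀ (F : Type) [Field F] [Finite F] (τ : F), Good F → (3 : F) ≠ 0 → τ ≠ 0 →
  (∀ x : F, ∃ y : F, y ^ 3 = x) → (∀ x : F, x ≠ 0 → ∃ n : ℕ, τ ^ n = x) →
  ∀ a b c d : Cor F, Gens τ a b c d → Subgroup.closure ({a, b, c, d} : Set (Cor F)) = ⊤

/-- existence in rank four -/
def EXStmt : Prop := ∀ (F : Type) [Field F] [Fintype F], Fintype.card F % 6 = 5 →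
  HasStringC (GraphExt F) 4

/-- the final theorem -/
def FINStmt : Prop := ∀ (F : Type) [Field F] [Fintype F], Fintype.card F % 6 = 5 →
  Subgroup.center (SL3 F) = ⊥ ∧
  (∀ G : Subgroup (MulAut (SL3 F)), Inn F ≤ G → G ≤ AutG F →
    ((∃ r, HasStringC G r) ↔ G = GraphExt F)) ∧
  IsGreatest {r : ℕ | HasStringC (GraphExt F) r} 4

end Pool.SCG
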